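import Pool.Agent.J6H34.GRO.Basic

/-!
# If all boundary points of the spectrum are poles of the resolvent, the operator is algebraic
-/

namespace Pool.Agent.J6H34.GRO

open Filter Topology Metric Set Polynomial

variable {X : Type*} [NormedAddCommGroup X] [NormedSpace ℂ X] [CompleteSpace X]

omit [CompleteSpace X] in
/-- `R(z) (T - s)^n` is bounded near a pole of order at most `n` -/
theorem bounded_res_pow {T : X →L[ℂ] X} {s : ℂ} {n : ℕ} {C : ℝ}
    (h : ∀ᶠ z in 𝓝[≠] s, z ∈ resolventSet ℂ T ∧ ‖z - s‖ ^ n * ‖resolvent T z‖ ≤ C) :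
    ∃ C' : ℝ, ∀ᶠ z in 𝓝[≠] s,
      ‖resolvent T z * (T - algebraMap ℂ (X →L[ℂ] X) s) ^ n‖ ≤ C' := by
  set A : X →L[ℂ] X := T - algebraMap ℂ (X →L[ℂ] X) s with hA
  set Q : ℂ → (X →L[ℂ] X) := fun z =>
    ∑ i ∈ Finset.range n, A ^ i * (algebraMap ℂ (X →L[ℂ] X) (z - s)) ^ (n - 1 - i) with hQ
  have hQc : Continuous Q := by
    rw [hQ]
    have : Continuous (algebraMap ℂ (X →L[ℂ] X)) := continuous_algebraMap ℂ (X →L[ℂ] X)
    fun_prop
  have hQb : ∀ᶠ z in 𝓝[≠] s, ‖Q z‖ < ‖Q s‖ + 1 :=
    (((hQc.norm).tendsto s).eventually (gt_mem_nhds (by linarith))).filter_mono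
      nhdsWithin_le_nhds
  refine ⟨C + (‖Q s‖ + 1), ?_⟩
  filter_upwards [h, hQb] with z hz hz2
  have hcomm : Commute A (algebraMap ℂ (X →L[ℂ] X) (z - s)) :=
    (Algebra.commutes _ _).symm
  have h1 := hcomm.mul_geom_sum₂ n
  have h2 : A - algebraMap ℂ (X →L[ℂ] X) (z - s)
      = -(algebraMap ℂ (X →L[ℂ] X) z - T) := by
    rw [hA, map_sub]
    abel
  have h3 : resolvent T z * (algebraMap ℂ (X →L[ℂ] X) z - T) = 1 :=
    Ring.inverse_mul_cancel _ (spectrum.mem_resolventSet_iff.1 hz.1)
  have h4 : resolvent T z * A ^ n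
      = resolvent T z * (algebraMap ℂ (X →L[ℂ] X) (z - s)) ^ n - Q z := by
    have h5 : A ^ n = (algebraMap ℂ (X →L[ℂ] X) (z - s)) ^ n
        + -(algebraMap ℂ (X →L[ℂ] X) z - T) * Q z := by
      rw [← h2, hQ]
      simp only
      rw [h1]
      abel
    rw [h5, mul_add, neg_mul, mul_neg, ← mul_assoc, h3, one_mul]
    abel
  rw [h4]
  refine (norm_sub_le _ _).trans (add_le_add ?_ hz2.le)
  rw [← map_pow, Algebra.algebraMap_eq_smul_one, mul_smul_comm, mul_one, norm_smul, norm_pow]
  exact hz.2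

/-- if all boundary points of the spectrum are poles, then the spectrum is finite, and all its
points are poles -/
theorem finite_spectrum {T : X →L[ℂ] X}
    (h : ∀ c ∈ frontier (spectrum ℂ T), RegularOrPole T c) :
    (spectrum ℂ T).Finite ∧ ∀ c ∈ spectrum ℂ T, RegularOrPole T c := by
  have hρo : IsOpen (resolventSet ℂ T) := spectrum.isOpen_resolventSet T
  have hcompl : (spectrum ℂ T)ᶜ = resolventSet ℂ T := compl_compl _
  have hcob : ∀ᶠ z in Bornology.cobounded ℂ, z ∈ resolventSet ℂ T := by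
    have h1 : (spectrum ℂ T)ᶜ ∈ Bornology.cobounded ℂ := (spectrum.isBounded T)
    filter_upwards [h1] with z hz
    exact not_not.1 hz
  set u : Set ℂ := {z | ∀ᶠ w in 𝓝[≠] z, w ∈ resolventSet ℂ T} with hu
  have hρu : resolventSet ℂ T ⊆ u := fun z hz => mem_nhdsWithin_of_mem_nhds (hρo.mem_nhds hz)
  have hucl : u ⊆ closure (resolventSet ℂ T) := by
    intro z hz
    have h1 : ∃ᶠ w in 𝓝[≠] z, w ∈ resolventSet ℂ T := Eventually.frequently hz
    rw [mem_closure_iff_frequently]
    exact h1.filter_mono nhdsWithin_le_nhds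
  have huo : IsOpen u := by
    rw [isOpen_iff_mem_nhds]
    intro z hz
    have h1 : ∀ᶠ w in 𝓝[≠] z, w ∈ resolventSet ℂ T := hz
    rw [eventually_nhdsWithin_iff] at h1
    filter_upwards [h1] with w hw
    by_cases hwz : w = z
    · rw [hwz]
      exact hz
    · exact hρu (hw hwz)
  have hfr : ∀ c ∈ closure (resolventSet ℂ T), c ∈ spectrum ℂ T →
      c ∈ frontier (spectrum ℂ T) := by
    intro c hc1 hc2
    rw [frontier_eq_closure_inter_closure, hcompl]
    exact ⟨subset_closure hc2, hc1⟩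
  have huniv : (univ : Set ℂ) ⊆ u := by
    refine isPreconnected_univ.subset_of_closure_inter_subset huo ?_ ?_
    · obtain ⟨z, hz⟩ := hcob.exists
      exact ⟨z, mem_univ z, hρu hz⟩
    · rintro z ⟨hz1, -⟩
      have hz3 : z ∈ closure (resolventSet ℂ T) := by
        have := closure_mono hucl hz1
        rwa [closure_closure] at this
      by_cases hzρ : z ∈ resolventSet ℂ T
      · exact hρu hzρ
      · obtain ⟨n, C, hC⟩ := h z (hfr z hz3 hzρ)
        exact hC.mono fun w hw => hw.1
  constructor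
  · by_contra hinf
    obtain ⟨c, hc1, hc2⟩ := (Set.not_finite.1 hinf : (spectrum ℂ T).Infinite).exists_accPt_of_subset_isCompact
      (spectrum.isCompact T) Subset.rfl
    rw [accPt_iff_frequently_nhdsNE] at hc2
    have h1 : ∀ᶠ w in 𝓝[≠] c, w ∈ resolventSet ℂ T := huniv (mem_univ c)
    obtain ⟨w, hw1, hw2⟩ := (hc2.and_eventually h1).exists
    exact hw1 hw2
  · intro c hc
    exact h c (hfr c (hucl (huniv (mem_univ c))) hc)

/-- an operator with a finite spectrum which consists of poles of the resolvent is algebraic -/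
theorem isAlgebraic_of_poles {T : X →L[ℂ] X}
    (h : ∀ c ∈ frontier (spectrum ℂ T), RegularOrPole T c) : IsAlgebraic ℂ T := by
  classical
  obtain ⟨hfin, hpole⟩ := finite_spectrum h
  have hρo : IsOpen (resolventSet ℂ T) := spectrum.isOpen_resolventSet T
  have hcob : ∀ᶠ z in Bornology.cobounded ℂ, z ∈ resolventSet ℂ T := by
    have h1 : (spectrum ℂ T)ᶜ ∈ Bornology.cobounded ℂ := (spectrum.isBounded T)
    filter_upwards [h1] with z hz
    exact not_not.1 hz
  have hpole' : ∀ c : ℂ, ∃ n : ℕ, c ∈ spectrum ℂ T → ∃ C : ℝ, ∀ᶠ z in 𝓝[≠] c,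
      z ∈ resolventSet ℂ T ∧ ‖z - c‖ ^ n * ‖resolvent T z‖ ≤ C := by
    intro c
    by_cases hc : c ∈ spectrum ℂ T
    · obtain ⟨n, C, hC⟩ := hpole c hc
      exact ⟨n, fun _ => ⟨C, hC⟩⟩
    · exact ⟨0, fun h => absurd h hc⟩
  choose n hn using hpole'
  set S := hfin.toFinset with hS
  set p : ℂ[X] := ∏ s ∈ S, (Polynomial.X - Polynomial.C s) ^ n s with hp
  have hp0 : p ≠ 0 := by
    rw [hp, Finset.prod_ne_zero_iff]
    intro s _
    exact pow_ne_zero _ (X_sub_C_ne_zero s)
  set F : ℂ → (X →L[ℂ] X) := fun z => resolvent T z * aeval T p with hF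
  have hFd : ∀ z ∈ resolventSet ℂ T, DifferentiableAt ℂ F z := fun z hz =>
    (hasDerivAt_res hz).mul_const _
  have hFb : ∀ s ∈ spectrum ℂ T, ∃ C : ℝ, ∀ᶠ z in 𝓝[≠] s, ‖F z‖ ≤ C := by
    intro s hs
    have hsS : s ∈ S := hfin.mem_toFinset.2 hs
    obtain ⟨C, hC⟩ := hn s hs
    obtain ⟨C', hC'⟩ := bounded_res_pow hC
    set q : ℂ[X] := ∏ t ∈ S.erase s, (Polynomial.X - Polynomial.C t) ^ n t with hq
    have hpq : p = (Polynomial.X - Polynomial.C s) ^ n s * q :=
      (Finset.mul_prod_erase S (fun t => (Polynomial.X - Polynomial.C t) ^ n t) hsS).symm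
    refine ⟨C' * ‖aeval T q‖, ?_⟩
    filter_upwards [hC'] with z hz
    have h1 : F z = (resolvent T z * (T - algebraMap ℂ (X →L[ℂ] X) s) ^ n s) * aeval T q := by
      rw [hF]
      simp only
      rw [hpq, map_mul, map_pow, map_sub, aeval_X, aeval_C, mul_assoc]
    rw [h1]
    exact (norm_mul_le _ _).trans (mul_le_mul_of_nonneg_right hz (norm_nonneg _))
  have hiso : ∀ s ∈ spectrum ℂ T, ∀ᶠ z in 𝓝[≠] s, z ∈ resolventSet ℂ T := by
    intro s hs
    obtain ⟨C, hC⟩ := hn s hs
    exact hC.mono fun w hw => hw.1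
  set F' : ℂ → (X →L[ℂ] X) := fun z =>
    if z ∈ spectrum ℂ T then limUnder (𝓝[≠] z) F else F z with hF'
  have hF'ρ : ∀ z ∈ resolventSet ℂ T, F' z = F z := by
    intro z hz
    rw [hF']
    simp only
    rw [if_neg]
    exact fun h => h hz
  have hF'd1 : ∀ z ∈ resolventSet ℂ T, DifferentiableAt ℂ F' z := by
    intro z hz
    refine (hFd z hz).congr_of_eventuallyEq ?_
    filter_upwards [hρo.mem_nhds hz] with w hw
    exact hF'ρ w hw
  have hF'd : Differentiable ℂ F' := by
    intro z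
    by_cases hz : z ∈ resolventSet ℂ T
    · exact hF'd1 z hz
    · have hzσ : z ∈ spectrum ℂ T := hz
      refine (Complex.analyticAt_of_differentiable_on_punctured_nhds_of_continuousAt
        ?_ ?_).differentiableAt
      · filter_upwards [hiso z hzσ] with w hw
        exact hF'd1 w hw
      · rw [← continuousWithinAt_compl_self]
        have h1 : Tendsto F (𝓝[≠] z) (𝓝 (limUnder (𝓝[≠] z) F)) := by
          refine Complex.tendsto_limUnder_of_differentiable_on_punctured_nhds_of_bounded_under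
            ?_ ?_
          · filter_upwards [hiso z hzσ] with w hw
            exact hFd w hw
          · obtain ⟨C, hC⟩ := hFb z hzσ
            refine ⟨C + ‖F z‖, ?_⟩
            rw [eventually_map]
            filter_upwards [hC] with w hw
            exact (norm_sub_le _ _).trans (by linarith)
        have h2 : F' z = limUnder (𝓝[≠] z) F := by
          rw [hF']
          simp only
          rw [if_pos hzσ]
        rw [ContinuousWithinAt, h2]
        refine h1.congr' ?_
        filter_upwards [hiso z hzσ] with w hw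
        exact (hF'ρ w hw).symm
  have hlim : Tendsto F' (cocompact ℂ) (𝓝 0) := by
    rw [← Metric.cobounded_eq_cocompact]
    have h1 : Tendsto F (Bornology.cobounded ℂ) (𝓝 (0 * aeval T p)) :=
      (spectrum.resolvent_tendsto_cobounded (𝕜 := ℂ) T).mul_const _
    rw [zero_mul] at h1
    refine h1.congr' ?_
    filter_upwards [hcob] with z hz
    exact (hF'ρ z hz).symm
  obtain ⟨z, hz⟩ := hcob.exists
  have h3 : F' z = 0 := hF'd.apply_eq_of_tendsto_cocompact z hlim
  rw [hF'ρ z hz] at h3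
  have h4 : (algebraMap ℂ (X →L[ℂ] X) z - T) * resolvent T z = 1 :=
    Ring.mul_inverse_cancel _ (spectrum.mem_resolventSet_iff.1 hz)
  have h5 : aeval T p = 0 := by
    calc aeval T p = (algebraMap ℂ (X →L[ℂ] X) z - T) * (resolvent T z * aeval T p) := by
          rw [← mul_assoc, h4, one_mul]
      _ = 0 := by
          have : resolvent T z * aeval T p = 0 := h3
          rw [this, mul_zero]
  exact ⟨p, hp0, h5⟩

end Pool.Agent.J6H34.GRO
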