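import Pool.Agent.J6H34.GRO.Defs

/-!
# Resolvents and rank one perturbations
-/

namespace Pool.Agent.J6H34.GRO

open Filter Topology Metric Set

variable {X : Type*} [NormedAddCommGroup X] [NormedSpace ℂ X]

/-- the function `v((z - T)⁻¹ u)` -/
noncomputable def ev (T : X →L[ℂ] X) (p : X × StrongDual ℂ X) (z : ℂ) : ℂ :=
  p.2 (resolvent T z p.1)

theorem pert_apply (T : X →L[ℂ] X) (p : X × StrongDual ℂ X) (x : X) :
    pert T p x = T x + p.2 x • p.1 := by
  simp [pert]

theorem res_right {T : X →L[ℂ] X} {z : ℂ} (hz : z ∈ resolventSet ℂ T) (x : X) :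
    z • resolvent T z x - T (resolvent T z x) = x := by
  have h : (algebraMap ℂ (X →L[ℂ] X) z - T) * resolvent T z = 1 :=
    Ring.mul_inverse_cancel _ (spectrum.mem_resolventSet_iff.1 hz)
  have := congrArg (fun A : X →L[ℂ] X => A x) h
  simpa [Algebra.algebraMap_eq_smul_one, mul_apply_eq_comp] using this

theorem res_left {T : X →L[ℂ] X} {z : ℂ} (hz : z ∈ resolventSet ℂ T) (x : X) :
    resolvent T z (z • x - T x) = x := by
  have h : resolvent T z * (algebraMap ℂ (X →L[ℂ] X) z - T) = 1 :=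
    Ring.inverse_mul_cancel _ (spectrum.mem_resolventSet_iff.1 hz)
  have := congrArg (fun A : X →L[ℂ] X => A x) h
  simpa [Algebra.algebraMap_eq_smul_one, mul_apply_eq_comp] using this

theorem res_res {T : X →L[ℂ] X} {z w : ℂ} (hz : z ∈ resolventSet ℂ T)
    (hw : w ∈ resolventSet ℂ T) (x : X) :
    (w - z) • resolvent T z (resolvent T w x) = resolvent T z x - resolvent T w x := by
  have h1 := res_right hw x
  have h2 := res_left hz (resolvent T w x)
  have h3 : resolvent T z x = resolvent T z (w • resolvent T w x - T (resolvent T w x)) := by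
    rw [h1]
  rw [h3]
  nth_rewrite 4 [← h2]
  rw [← map_sub, ← map_smul]
  congr 1
  rw [sub_smul]
  abel

/-- a solution of `v((z - T)⁻¹ u) = 1` is an eigenvalue -/
theorem eig_of_ev {T : X →L[ℂ] X} {p : X × StrongDual ℂ X} {z : ℂ} (hz : z ∈ resolventSet ℂ T)
    (h : ev T p z = 1) :
    resolvent T z p.1 ≠ 0 ∧ pert T p (resolvent T z p.1) = z • resolvent T z p.1 := by
  constructor
  · intro h0
    rw [ev, h0, map_zero] at h
    exact zero_ne_one h
  · rw [pert_apply]
    have h1 := res_right hz p.1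
    have h2 : p.2 (resolvent T z p.1) = 1 := h
    rw [h2, one_smul]
    nth_rewrite 2 [← h1]
    abel

/-- the eigenvectors for such eigenvalues are the multiples of `(z - T)⁻¹ u` -/
theorem eq_smul_of_eig {T : X →L[ℂ] X} {p : X × StrongDual ℂ X} {z : ℂ}
    (hz : z ∈ resolventSet ℂ T) {x : X} (h : pert T p x = z • x) :
    x = p.2 x • resolvent T z p.1 := by
  have h1 := res_left hz x
  rw [pert_apply] at h
  have h2 : z • x - T x = p.2 x • p.1 := by rw [← h]; abel
  rw [h2, map_smul] at h1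
  exact h1.symm

section Complete

variable [CompleteSpace X]

theorem hasDerivAt_res {T : X →L[ℂ] X} {z : ℂ} (hz : z ∈ resolventSet ℂ T) :
    DifferentiableAt ℂ (resolvent T) z :=
  (spectrum.hasDerivAt_resolvent_const_left hz).differentiableAt

theorem continuousAt_ev {T : X →L[ℂ] X} {p : X × StrongDual ℂ X} {z : ℂ}
    (hz : z ∈ resolventSet ℂ T) :
    ContinuousAt (fun q : (X × StrongDual ℂ X) × ℂ => ev T q.1 q.2) (p, z) := by
  unfold ev
  have h1 : ContinuousAt (fun q : (X × StrongDual ℂ X) × ℂ => resolvent T q.2) (p, z) :=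
    ContinuousAt.comp (f := fun q : (X × StrongDual ℂ X) × ℂ => q.2) (g := resolvent T)
      (hasDerivAt_res hz).continuousAt continuousAt_snd
  exact ContinuousAt.clm_apply (continuousAt_fst.snd) (h1.clm_apply continuousAt_fst.fst)

theorem differentiableAt_ev {T : X →L[ℂ] X} (p : X × StrongDual ℂ X) {z : ℂ}
    (hz : z ∈ resolventSet ℂ T) : DifferentiableAt ℂ (ev T p) z := by
  unfold ev
  exact (p.2.differentiableAt).comp z
    ((hasDerivAt_res hz).clm_apply (differentiableAt_const _))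

theorem analyticAt_ev {T : X →L[ℂ] X} (p : X × StrongDual ℂ X) {z : ℂ}
    (hz : z ∈ resolventSet ℂ T) : AnalyticAt ℂ (ev T p) z := by
  have h : DifferentiableOn ℂ (ev T p) (resolventSet ℂ T) := fun w hw =>
    (differentiableAt_ev p hw).differentiableWithinAt
  exact h.analyticAt ((spectrum.isOpen_resolventSet T).mem_nhds hz)

/-- the norm of the resolvent is at least the reciprocal of the distance to the spectrum -/
theorem one_le_norm_res {T : X →L[ℂ] X} {z s : ℂ} (hz : z ∈ resolventSet ℂ T)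
    (hs : s ∉ resolventSet ℂ T) : 1 ≤ ‖z - s‖ * ‖resolvent T z‖ := by
  by_contra hlt
  push Not at hlt
  apply hs
  rw [spectrum.mem_resolventSet_iff]
  have h1 : (algebraMap ℂ (X →L[ℂ] X) z - T) * resolvent T z = 1 :=
    Ring.mul_inverse_cancel _ (spectrum.mem_resolventSet_iff.1 hz)
  have h2 : algebraMap ℂ (X →L[ℂ] X) s - T
      = (algebraMap ℂ (X →L[ℂ] X) z - T) * (1 - (z - s) • resolvent T z) := by
    rw [mul_sub, mul_one, mul_smul_comm, h1]
    simp only [Algebra.algebraMap_eq_smul_one]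
    rw [sub_smul]
    abel
  rw [h2]
  refine (spectrum.mem_resolventSet_iff.1 hz).mul ?_
  apply isUnit_one_sub_of_norm_lt_one
  rw [norm_smul]
  exact hlt

theorem ev_tendsto_zero (T : X →L[ℂ] X) (p : X × StrongDual ℂ X) :
    Tendsto (ev T p) (Bornology.cobounded ℂ) (𝓝 0) := by
  have h1 := spectrum.resolvent_tendsto_cobounded (𝕜 := ℂ) T
  have h2 := ((p.2.comp (ContinuousLinearMap.apply ℂ X p.1)).continuous.tendsto 0).comp h1
  rw [map_zero] at h2
  exact h2

end Complete

/-- a polynomial of degree one in each variable without zeros in a polydisc -/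
theorem bilin_bound {a b c d : ℂ} {r : ℝ} (hr : 0 < r)
    (h : ∀ s t : ℂ, ‖s‖ < r → ‖t‖ < r → a + b * s + c * t + d * (s * t) ≠ 0) :
    r ^ 2 * ‖d‖ ≤ 3 * ‖a‖ := by
  have h1 : ∀ s : ℂ, ‖s‖ < r → r * ‖c + d * s‖ ≤ ‖a + b * s‖ := by
    intro s hs
    by_contra hlt
    push Not at hlt
    have hne : c + d * s ≠ 0 := by
      intro h0
      rw [h0, norm_zero, mul_zero] at hlt
      exact absurd hlt (not_lt.2 (norm_nonneg _))
    have hpos : 0 < ‖c + d * s‖ := norm_pos_iff.2 hne
    refine h s (-(a + b * s) / (c + d * s)) hs ?_ ?_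
    · rw [norm_div, norm_neg, div_lt_iff₀ hpos]
      exact hlt
    · have h0 : a + b * s + c * (-(a + b * s) / (c + d * s))
          + d * (s * (-(a + b * s) / (c + d * s)))
          = (a + b * s) + (c + d * s) * (-(a + b * s) / (c + d * s)) := by ring
      rw [h0, mul_div_cancel₀ _ hne, add_neg_cancel]
  have h2 : r * ‖b‖ ≤ ‖a‖ := by
    by_contra hlt
    push Not at hlt
    have hne : b ≠ 0 := by
      intro h0
      rw [h0, norm_zero, mul_zero] at hlt
      exact absurd hlt (not_lt.2 (norm_nonneg _))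
    have hpos : 0 < ‖b‖ := norm_pos_iff.2 hne
    refine h (-a / b) 0 ?_ (by simpa using hr) ?_
    · rw [norm_div, norm_neg, div_lt_iff₀ hpos]
      exact hlt
    · field_simp
      ring
  have hn : ‖((r / 2 : ℝ) : ℂ)‖ = r / 2 := by
    rw [Complex.norm_real, Real.norm_of_nonneg (by positivity)]
  have h3 := h1 ((r / 2 : ℝ) : ℂ) (by rw [hn]; linarith)
  have h4 := h1 (-((r / 2 : ℝ) : ℂ)) (by rw [norm_neg, hn]; linarith)
  have h5 : ‖a + b * ((r / 2 : ℝ) : ℂ)‖ ≤ ‖a‖ + ‖b‖ * (r / 2) := by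
    refine (norm_add_le _ _).trans ?_
    rw [norm_mul, hn]
  have h6 : ‖a + b * -((r / 2 : ℝ) : ℂ)‖ ≤ ‖a‖ + ‖b‖ * (r / 2) := by
    refine (norm_add_le _ _).trans ?_
    rw [norm_mul, norm_neg, hn]
  have h7 : ‖d‖ * r ≤ ‖c + d * ((r / 2 : ℝ) : ℂ)‖ + ‖c + d * -((r / 2 : ℝ) : ℂ)‖ := by
    have : d * ((r : ℝ) : ℂ)
        = (c + d * ((r / 2 : ℝ) : ℂ)) - (c + d * -((r / 2 : ℝ) : ℂ)) := by
      push_cast
      ring
    have h8 : ‖d * ((r : ℝ) : ℂ)‖ = ‖d‖ * r := by
      rw [norm_mul, Complex.norm_real, Real.norm_of_nonneg hr.le]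
    rw [← h8, this]
    exact norm_sub_le _ _
  have h9 : r * (‖d‖ * r)
      ≤ r * (‖c + d * ((r / 2 : ℝ) : ℂ)‖ + ‖c + d * -((r / 2 : ℝ) : ℂ)‖) :=
    mul_le_mul_of_nonneg_left h7 hr.le
  nlinarith

/-- if `v((z - T)⁻¹ u) ≠ 1` for all `(u, v)` in a ball, then the resolvent is bounded by the value
at the centre -/
theorem res_bound {T : X →L[ℂ] X} {p₀ : X × StrongDual ℂ X} {r : ℝ} (hr : 0 < r) {z : ℂ}
    (h : ∀ p ∈ ball p₀ r, ev T p z ≠ 1) :
    ‖resolvent T z‖ ≤ 3 / r ^ 2 * ‖ev T p₀ z - 1‖ := by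
  have key : ∀ (w : X) (φ : StrongDual ℂ X), ‖w‖ ≤ 1 → ‖φ‖ ≤ 1 →
      ‖φ (resolvent T z w)‖ ≤ 3 / r ^ 2 * ‖ev T p₀ z - 1‖ := by
    intro w φ hw hφ
    have h1 := bilin_bound (a := ev T p₀ z - 1) (b := p₀.2 (resolvent T z w))
      (c := φ (resolvent T z p₀.1)) (d := φ (resolvent T z w)) hr (by
        intro s t hs ht h0
        refine h (p₀.1 + s • w, p₀.2 + t • φ) ?_ ?_
        · rw [mem_ball, Prod.dist_eq, max_lt_iff]
          constructor
          · rw [dist_eq_norm]
            simp only [add_sub_cancel_left]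
            rw [norm_smul]
            nlinarith [norm_nonneg s, norm_nonneg w]
          · rw [dist_eq_norm]
            simp only [add_sub_cancel_left]
            rw [norm_smul]
            nlinarith [norm_nonneg t, norm_nonneg φ]
        · have : ev T (p₀.1 + s • w, p₀.2 + t • φ) z - 1
              = ev T p₀ z - 1 + p₀.2 (resolvent T z w) * s + φ (resolvent T z p₀.1) * t
                + φ (resolvent T z w) * (s * t) := by
            simp only [ev, map_add, map_smul, add_apply, smul_apply, smul_eq_mul]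
            ring
          rw [← sub_eq_zero, this, h0])
    rw [div_mul_eq_mul_div, le_div_iff₀ (by positivity)]
    linarith
  have hC : 0 ≤ 3 / r ^ 2 * ‖ev T p₀ z - 1‖ := by positivity
  refine ContinuousLinearMap.opNorm_le_bound _ hC ?_
  intro w
  rcases eq_or_ne w 0 with rfl | hw
  · simp
  have hwn : 0 < ‖w‖ := norm_pos_iff.2 hw
  obtain ⟨φ, hφ1, hφ2⟩ := exists_dual_vector'' ℂ (resolvent T z (((‖w‖ : ℝ) : ℂ)⁻¹ • w))
  have h1 := key (((‖w‖ : ℝ) : ℂ)⁻¹ • w) φ (by
    rw [norm_smul, norm_inv, Complex.norm_real, norm_norm, inv_mul_cancel₀ hwn.ne']) hφ1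
  rw [hφ2] at h1
  rw [map_smul, norm_smul, norm_inv, Complex.norm_real, norm_norm] at h1
  simp only [RCLike.norm_ofReal, abs_mul, abs_norm, abs_inv] at h1
  rw [inv_mul_le_iff₀ hwn] at h1
  rw [mul_comm]
  exact h1

end Pool.Agent.J6H34.GRO
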