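import Mathlib

/-!
# A function which is small near the complement of its domain

`D` is open and connected, `Ω ⊆ D` is open and not empty, `h` is holomorphic and has no zeros on
`Ω`, and `|h(z)| ≤ C |z - s|` for all `z ∈ Ω` and `s ∈ D \ Ω`. Then all points of `D \ Ω` are
isolated, and `h`, extended by `0`, is holomorphic on `D`.
-/

namespace Pool.Agent.J6H34.GRO

open Filter Topology Metric Set

theorem prod_bound (B : Finset ℂ) (z : ℂ) :
    ∃ M : ℝ, 0 ≤ M ∧ ∀ᶠ w in 𝓝 z, ‖w - z‖ ≤ M * ‖∏ b ∈ B, (w - b)‖ := by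
  classical
  have hcont : ∀ B' : Finset ℂ, Continuous (fun w : ℂ => ∏ b ∈ B', (w - b)) := fun B' => by
    fun_prop
  have hev : ∀ B' : Finset ℂ, z ∉ B' →
      0 < ‖∏ b ∈ B', (z - b)‖ ∧
      ∀ᶠ w in 𝓝 z, ‖∏ b ∈ B', (z - b)‖ / 2 < ‖∏ b ∈ B', (w - b)‖ := by
    intro B' hz
    have h0 : 0 < ‖∏ b ∈ B', (z - b)‖ := by
      rw [norm_pos_iff, Finset.prod_ne_zero_iff]
      intro b hb h1
      exact hz ((sub_eq_zero.1 h1) ▸ hb)
    refine ⟨h0, ?_⟩
    have h1 : Tendsto (fun w : ℂ => ‖∏ b ∈ B', (w - b)‖) (𝓝 z) (𝓝 ‖∏ b ∈ B', (z - b)‖) :=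
      ((hcont B').norm).tendsto z
    exact h1.eventually (lt_mem_nhds (by linarith))
  by_cases hz : z ∈ B
  · obtain ⟨h0, h1⟩ := hev (B.erase z) (Finset.notMem_erase z B)
    refine ⟨2 / ‖∏ b ∈ B.erase z, (z - b)‖, by positivity, ?_⟩
    filter_upwards [h1] with w hw
    rw [← Finset.mul_prod_erase B (fun b => w - b) hz, norm_mul]
    rw [div_mul_eq_mul_div, le_div_iff₀ h0]
    nlinarith [norm_nonneg (w - z)]
  · obtain ⟨h0, h1⟩ := hev B hz
    refine ⟨2 / ‖∏ b ∈ B, (z - b)‖, by positivity, ?_⟩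
    have h2 : ∀ᶠ w in 𝓝 z, ‖w - z‖ < 1 := by
      filter_upwards [ball_mem_nhds z one_pos] with w hw
      rwa [mem_ball, dist_eq_norm] at hw
    filter_upwards [h1, h2] with w hw hw2
    rw [div_mul_eq_mul_div, le_div_iff₀ h0]
    nlinarith [norm_nonneg (w - z)]

section

variable {D Ω : Set ℂ} {h : ℂ → ℂ} {C : ℝ}

theorem isolated_of_mem_closure (hD : IsOpen D) (hΩ : IsOpen Ω)
    (hd : ∀ z ∈ Ω, DifferentiableAt ℂ h z) (hne : ∀ z ∈ Ω, h z ≠ 0)
    (hb : ∀ z ∈ Ω, ∀ s ∈ D \ Ω, ‖h z‖ ≤ C * ‖z - s‖) {s₀ : ℂ} (hs : s₀ ∈ D \ Ω)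
    (hcl : s₀ ∈ closure Ω) : ∀ᶠ z in 𝓝[≠] s₀, z ∈ Ω := by
  classical
  by_contra hnot
  obtain ⟨r, hr, hrD⟩ := nhds_basis_closedBall.mem_iff.1 (hD.mem_nhds hs.1)
  have hb' : ∀ z ∈ Ω, ∀ s ∈ D \ Ω, ‖h z‖ ≤ |C| * ‖z - s‖ := fun z hz s hs =>
    (hb z hz s hs).trans (mul_le_mul_of_nonneg_right (le_abs_self C) (norm_nonneg _))
  have hC : 0 ≤ |C| := abs_nonneg C
  -- infinitely many points of the complement
  have hinf : (ball s₀ (r / 8) \ Ω).Infinite := by
    intro hfin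
    apply hnot
    have hfin2 : ((ball s₀ (r / 8) \ Ω) \ {s₀}).Finite := hfin.subset sdiff_subset
    have h1 : ((ball s₀ (r / 8) \ Ω) \ {s₀})ᶜ ∈ 𝓝 s₀ :=
      hfin2.isClosed.isOpen_compl.mem_nhds (by simp)
    have h2 : ball s₀ (r / 8) ∈ 𝓝 s₀ := ball_mem_nhds _ (by positivity)
    rw [eventually_nhdsWithin_iff]
    filter_upwards [h1, h2] with z hz1 hz2 hz3
    by_contra hz4
    exact hz1 ⟨⟨hz2, hz4⟩, hz3⟩
  obtain ⟨α, hα1, hα2⟩ := mem_closure_iff.1 hcl _ (Metric.isOpen_ball (x := s₀) (ε := r / 8))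
    (mem_ball_self (by positivity))
  have hα3 : ‖α - s₀‖ < r / 8 := by rwa [mem_ball, dist_eq_norm] at hα1
  have key : ∀ k : ℕ, ‖h α‖ ^ 2 ≤ (|C| * r) ^ 2 * (2 / 7) ^ k := by
    intro k
    obtain ⟨B, hB1, hB2⟩ := hinf.exists_subset_card_eq k
    have hBD : ∀ b ∈ B, b ∈ D \ Ω := fun b hb => by
      have h1 := hB1 hb
      refine ⟨hrD ?_, h1.2⟩
      have h2 := h1.1
      rw [mem_ball] at h2
      rw [mem_closedBall]
      linarith
    have hBb : ∀ b ∈ B, ‖b - s₀‖ < r / 8 := fun b hb => by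
      have h1 := (hB1 hb).1
      rwa [mem_ball, dist_eq_norm] at h1
    set P : ℂ → ℂ := fun w => ∏ b ∈ B, (w - b) with hP
    have hPne : ∀ w ∈ Ω, P w ≠ 0 := by
      intro w hw
      rw [hP, Finset.prod_ne_zero_iff]
      intro b hb h1
      exact (hBD b hb).2 ((sub_eq_zero.1 h1) ▸ hw)
    have hPd : Differentiable ℂ P := by
      rw [hP]
      fun_prop
    set g : ℂ → ℂ := fun w => if w ∈ Ω then h w ^ 2 / P w else 0 with hg
    have hgd : ∀ w ∈ Ω, DifferentiableAt ℂ g w := by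
      intro w hw
      have h1 : DifferentiableAt ℂ (fun w => h w ^ 2 / P w) w :=
        ((hd w hw).pow 2).div (hPd w) (hPne w hw)
      refine h1.congr_of_eventuallyEq ?_
      filter_upwards [hΩ.mem_nhds hw] with w' hw'
      simp [hg, hw']
    set U : Set ℂ := ball s₀ r ∩ Ω with hU
    have hclU : closure U ⊆ closedBall s₀ r :=
      (closure_mono inter_subset_left).trans closure_ball_subset_closedBall
    have hdc : DiffContOnCl ℂ g U := by
      refine ⟨fun w hw => (hgd w hw.2).differentiableWithinAt, ?_⟩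
      intro z hz
      apply ContinuousAt.continuousWithinAt
      by_cases hzΩ : z ∈ Ω
      · exact (hgd z hzΩ).continuousAt
      · have hzK : z ∈ D \ Ω := ⟨hrD (hclU hz), hzΩ⟩
        obtain ⟨M, hM0, hM⟩ := prod_bound B z
        have hgz : g z = 0 := by simp [hg, hzΩ]
        have h1 : ∀ᶠ w in 𝓝 z, ‖g w‖ ≤ |C| ^ 2 * M * ‖w - z‖ := by
          filter_upwards [hM] with w hw
          by_cases hwΩ : w ∈ Ω
          · have h2 : g w = h w ^ 2 / P w := by simp [hg, hwΩ]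
            have h3 : 0 < ‖P w‖ := norm_pos_iff.2 (hPne w hwΩ)
            rw [h2, norm_div, norm_pow, div_le_iff₀ h3]
            have h4 := hb' w hwΩ z hzK
            have h5 : ‖h w‖ ^ 2 ≤ (|C| * ‖w - z‖) ^ 2 :=
              pow_le_pow_left₀ (norm_nonneg _) h4 2
            calc ‖h w‖ ^ 2 ≤ |C| ^ 2 * ‖w - z‖ * ‖w - z‖ := by nlinarith
              _ ≤ |C| ^ 2 * ‖w - z‖ * (M * ‖P w‖) :=
                  mul_le_mul_of_nonneg_left hw (by positivity)
              _ = |C| ^ 2 * M * ‖w - z‖ * ‖P w‖ := by ring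
          · have h2 : g w = 0 := by simp [hg, hwΩ]
            rw [h2, norm_zero]
            positivity
        rw [ContinuousAt, hgz]
        refine squeeze_zero_norm' h1 ?_
        have h6 : Tendsto (fun w : ℂ => |C| ^ 2 * M * ‖w - z‖) (𝓝 z)
            (𝓝 (|C| ^ 2 * M * ‖z - z‖)) := by
          apply Continuous.tendsto
          fun_prop
        simpa using h6
    have hbd : Bornology.IsBounded U := isBounded_ball.subset inter_subset_left
    have hfr : ∀ z ∈ frontier U, ‖g z‖ ≤ (|C| * r) ^ 2 / (7 * r / 8) ^ k := by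
      intro z hz
      have hUo : IsOpen U := isOpen_ball.inter hΩ
      rw [hUo.frontier_eq] at hz
      by_cases hzΩ : z ∈ Ω
      · have h1 := hclU hz.1
        have h2 : z ∉ ball s₀ r := fun h3 => hz.2 ⟨h3, hzΩ⟩
        rw [mem_closedBall, dist_eq_norm] at h1
        rw [mem_ball, dist_eq_norm, not_lt] at h2
        have h3 : g z = h z ^ 2 / P z := by simp [hg, hzΩ]
        rw [h3, norm_div, norm_pow]
        have h4 : ‖h z‖ ≤ |C| * r :=
          (hb' z hzΩ s₀ hs).trans (mul_le_mul_of_nonneg_left h1 hC)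
        have h5 : (7 * r / 8) ^ k ≤ ‖P z‖ := by
          rw [hP]
          simp only [norm_prod]
          rw [← hB2, ← Finset.prod_const]
          refine Finset.prod_le_prod (fun b hb => by positivity) ?_
          intro b hb
          have h6 : ‖z - s₀‖ ≤ ‖z - b‖ + ‖b - s₀‖ := by
            have : z - s₀ = (z - b) + (b - s₀) := by ring
            rw [this]
            exact norm_add_le _ _
          have h7 := hBb b hb
          linarith
        exact div_le_div₀ (by positivity) (pow_le_pow_left₀ (norm_nonneg _) h4 2)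
          (by positivity) h5
      · have h3 : g z = 0 := by simp [hg, hzΩ]
        rw [h3, norm_zero]
        positivity
    have hαU : α ∈ U := by
      refine ⟨?_, hα2⟩
      rw [mem_ball, dist_eq_norm]
      linarith
    have h1 := Complex.norm_le_of_forall_mem_frontier_norm_le hbd hdc hfr (subset_closure hαU)
    have h2 : g α = h α ^ 2 / P α := by simp [hg, hα2]
    have h3 : 0 < ‖P α‖ := norm_pos_iff.2 (hPne α hα2)
    have h4 : ‖P α‖ ≤ (r / 4) ^ k := by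
      rw [hP]
      simp only [norm_prod]
      rw [← hB2, ← Finset.prod_const]
      refine Finset.prod_le_prod (fun b hb => norm_nonneg _) ?_
      intro b hb
      have h6 : ‖α - b‖ ≤ ‖α - s₀‖ + ‖b - s₀‖ := by
        have : α - b = (α - s₀) - (b - s₀) := by ring
        rw [this]
        exact norm_sub_le _ _
      have h7 := hBb b hb
      linarith
    rw [h2, norm_div, norm_pow, div_le_iff₀ h3] at h1
    refine h1.trans ((mul_le_mul_of_nonneg_left h4 (by positivity)).trans (le_of_eq ?_))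
    have h5 : (2 / 7 : ℝ) ^ k = (r / 4) ^ k / (7 * r / 8) ^ k := by
      rw [← div_pow]
      congr 1
      field_simp
      norm_num
    rw [h5]
    ring
  have hlim : Tendsto (fun k : ℕ => (|C| * r) ^ 2 * (2 / 7 : ℝ) ^ k) atTop
      (𝓝 ((|C| * r) ^ 2 * 0)) :=
    (tendsto_pow_atTop_nhds_zero_of_lt_one (by norm_num) (by norm_num)).const_mul _
  have h1 : ‖h α‖ ^ 2 ≤ (|C| * r) ^ 2 * 0 := ge_of_tendsto' hlim key
  rw [mul_zero] at h1
  have h2 : 0 < ‖h α‖ := norm_pos_iff.2 (hne α hα2)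
  nlinarith

theorem all_isolated (hD : IsOpen D) (hDc : IsPreconnected D) (hΩ : IsOpen Ω) (hΩD : Ω ⊆ D)
    (hΩne : Ω.Nonempty) (hd : ∀ z ∈ Ω, DifferentiableAt ℂ h z) (hne : ∀ z ∈ Ω, h z ≠ 0)
    (hb : ∀ z ∈ Ω, ∀ s ∈ D \ Ω, ‖h z‖ ≤ C * ‖z - s‖) :
    ∀ s ∈ D, ∀ᶠ z in 𝓝[≠] s, z ∈ Ω := by
  set u : Set ℂ := {z | ∀ᶠ w in 𝓝[≠] z, w ∈ Ω} with hu
  have hΩu : Ω ⊆ u := fun z hz => mem_nhdsWithin_of_mem_nhds (hΩ.mem_nhds hz)
  have hucl : u ⊆ closure Ω := by
    intro z hz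
    have h1 : ∃ᶠ w in 𝓝[≠] z, w ∈ Ω := Eventually.frequently hz
    rw [mem_closure_iff_frequently]
    exact h1.filter_mono nhdsWithin_le_nhds
  have huo : IsOpen u := by
    rw [isOpen_iff_mem_nhds]
    intro z hz
    have h1 : ∀ᶠ w in 𝓝[≠] z, w ∈ Ω := hz
    rw [eventually_nhdsWithin_iff] at h1
    filter_upwards [h1] with w hw
    by_cases hwz : w = z
    · rw [hwz]
      exact hz
    · exact hΩu (hw hwz)
  have h1 : D ⊆ u := by
    refine hDc.subset_of_closure_inter_subset huo ?_ ?_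
    · obtain ⟨z, hz⟩ := hΩne
      exact ⟨z, hΩD hz, hΩu hz⟩
    · rintro z ⟨hz1, hz2⟩
      have hz3 : z ∈ closure Ω := by
        have := closure_mono hucl hz1
        rwa [closure_closure] at this
      by_cases hzΩ : z ∈ Ω
      · exact hΩu hzΩ
      · exact isolated_of_mem_closure hD hΩ hd hne hb ⟨hz2, hzΩ⟩ hz3
  exact h1

open Classical in
theorem analyticAt_ext (hΩ : IsOpen Ω) (hd : ∀ z ∈ Ω, DifferentiableAt ℂ h z)
    (hb : ∀ z ∈ Ω, ∀ s ∈ D \ Ω, ‖h z‖ ≤ C * ‖z - s‖)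
    (hiso : ∀ s ∈ D, ∀ᶠ z in 𝓝[≠] s, z ∈ Ω) {s : ℂ} (hs : s ∈ D) :
    AnalyticAt ℂ (fun z => if z ∈ Ω then h z else 0) s := by
  have hdif : ∀ w ∈ Ω, DifferentiableAt ℂ (fun z => if z ∈ Ω then h z else 0) w := by
    intro w hw
    refine (hd w hw).congr_of_eventuallyEq ?_
    filter_upwards [hΩ.mem_nhds hw] with w' hw'
    simp [hw']
  refine Complex.analyticAt_of_differentiable_on_punctured_nhds_of_continuousAt ?_ ?_
  · filter_upwards [hiso s hs] with z hz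
    exact hdif z hz
  · by_cases hsΩ : s ∈ Ω
    · exact (hdif s hsΩ).continuousAt
    · rw [ContinuousAt, if_neg hsΩ]
      refine squeeze_zero_norm' (a := fun w => |C| * ‖w - s‖) ?_ ?_
      · refine Eventually.of_forall fun w => ?_
        by_cases hw : w ∈ Ω
        · rw [if_pos hw]
          exact (hb w hw s ⟨hs, hsΩ⟩).trans
            (mul_le_mul_of_nonneg_right (le_abs_self C) (norm_nonneg _))
        · rw [if_neg hw, norm_zero]
          positivity
      · have h6 : Tendsto (fun w : ℂ => |C| * ‖w - s‖) (𝓝 s) (𝓝 (|C| * ‖s - s‖)) := by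
          apply Continuous.tendsto
          fun_prop
        simpa using h6

/-- finite order of vanishing -/
theorem exists_order (hΩ : IsOpen Ω) (hd : ∀ z ∈ Ω, DifferentiableAt ℂ h z)
    (hne : ∀ z ∈ Ω, h z ≠ 0)
    (hb : ∀ z ∈ Ω, ∀ s ∈ D \ Ω, ‖h z‖ ≤ C * ‖z - s‖)
    (hiso : ∀ s ∈ D, ∀ᶠ z in 𝓝[≠] s, z ∈ Ω) {s : ℂ} (hs : s ∈ D) :
    ∃ (n : ℕ) (c : ℝ), 0 < c ∧ ∀ᶠ z in 𝓝[≠] s, c * ‖z - s‖ ^ n ≤ ‖h z‖ := by
  classical
  have han := analyticAt_ext hΩ hd hb hiso hs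
  have hnz : ¬ ∀ᶠ z in 𝓝 s, (if z ∈ Ω then h z else 0) = 0 := by
    intro h0
    have h1 := (h0.filter_mono nhdsWithin_le_nhds : ∀ᶠ z in 𝓝[≠] s, _)
    obtain ⟨z, hz1, hz2⟩ := (h1.and (hiso s hs)).exists
    rw [if_pos hz2] at hz1
    exact hne z hz2 hz1
  obtain ⟨n, g, hg1, hg2, hg3⟩ := (han.exists_eventuallyEq_pow_smul_nonzero_iff).2 hnz
  have hg0 : 0 < ‖g s‖ := norm_pos_iff.2 hg2
  refine ⟨n, ‖g s‖ / 2, by positivity, ?_⟩
  have h1 : ∀ᶠ z in 𝓝 s, ‖g s‖ / 2 < ‖g z‖ :=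
    (hg1.continuousAt.norm).eventually (lt_mem_nhds (by linarith))
  filter_upwards [hiso s hs, hg3.filter_mono nhdsWithin_le_nhds,
    h1.filter_mono nhdsWithin_le_nhds] with z hz1 hz2 hz3
  rw [if_pos hz1] at hz2
  rw [hz2, norm_smul, norm_pow, mul_comm]
  exact mul_le_mul_of_nonneg_left hz3.le (by positivity)

end

end Pool.Agent.J6H34.GRO
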