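import Mathlib

/-!
# Rank one perturbations of an operator: definitions
-/

namespace Pool.Agent.J6H34.GRO

open Filter Topology

variable {X : Type*} [NormedAddCommGroup X] [NormedSpace ℂ X]

/-- The operator `T + u ⊗ v`, that is `x ↦ T x + v(x) u`, for `p = (u, v)`, where `u` is a vector
and `v` a continuous linear functional. -/
noncomputable def pert (T : X →L[ℂ] X) (p : X × StrongDual ℂ X) : X →L[ℂ] X :=
  T + p.2.smulRight p.1

/-- `M` is a closed subspace which is invariant under all bounded operators that commute with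
`A`. -/
def Hyperinvariant (A : X →L[ℂ] X) (M : Submodule ℂ X) : Prop :=
  IsClosed (M : Set X) ∧ ∀ B : X →L[ℂ] X, Commute A B → ∀ x ∈ M, B x ∈ M

/-- The eigenvalues of `A`: the numbers `μ` with `A x = μ x` for some `x ≠ 0`. -/
def eigenvalues (A : X →L[ℂ] X) : Set ℂ := {μ | ∃ x : X, x ≠ 0 ∧ A x = μ • x}

/-- `c` is a regular point or a pole of the resolvent `(z - T)⁻¹`: all `z ≠ c` near `c` are in
the resolvent set, and there the norm of the resolvent is `O(|z - c| ^ (-n))` for some `n`. -/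
def RegularOrPole (T : X →L[ℂ] X) (c : ℂ) : Prop :=
  ∃ (n : ℕ) (C : ℝ), ∀ᶠ z in 𝓝[≠] c, z ∈ resolventSet ℂ T ∧ ‖z - c‖ ^ n * ‖resolvent T z‖ ≤ C

end Pool.Agent.J6H34.GRO
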