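import Pool.Agent.J6H34.GRO.Basic
import Pool.Agent.J6H34.GRO.Cx

/-!
# The sets of good pairs `(u, v)` are open, and dense near points which are not poles
-/

namespace Pool.Agent.J6H34.GRO

open Filter Topology Metric Set

variable {X : Type*} [NormedAddCommGroup X] [NormedSpace ℂ X]

/-- there is a disc in `ρ(T) ∩ D` such that `|v((z - T)⁻¹ u) - 1|` is smaller at its centre than
on its boundary -/
def G (T : X →L[ℂ] X) (D : Set ℂ) : Set (X × StrongDual ℂ X) :=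
  {p | ∃ (m : ℂ) (r : ℝ), 0 < r ∧ closedBall m r ⊆ resolventSet ℂ T ∩ D ∧
    ∀ z ∈ sphere m r, ‖ev T p m - 1‖ < ‖ev T p z - 1‖}

variable [CompleteSpace X]

theorem isOpen_G (T : X →L[ℂ] X) (D : Set ℂ) : IsOpen (G T D) := by
  rw [isOpen_iff_mem_nhds]
  rintro p ⟨m, r, hr, hsub, hp⟩
  have h1 : ∀ᶠ q in 𝓝 p, ∀ z ∈ sphere m r, ‖ev T q m - 1‖ < ‖ev T q z - 1‖ := by
    refine (isCompact_sphere m r).eventually_forall_of_forall_eventually ?_
    intro z hz
    have hz1 : z ∈ resolventSet ℂ T := (hsub (sphere_subset_closedBall hz)).1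
    have hm1 : m ∈ resolventSet ℂ T := (hsub (mem_closedBall_self hr.le)).1
    have hc1 : ContinuousAt (fun q : (X × StrongDual ℂ X) × ℂ => ‖ev T q.1 q.2 - 1‖) (p, z) :=
      ((continuousAt_ev hz1).sub continuousAt_const).norm
    have hc2 : ContinuousAt (fun q : (X × StrongDual ℂ X) × ℂ => ‖ev T q.1 m - 1‖) (p, z) := by
      have h3 : ContinuousAt (fun q : (X × StrongDual ℂ X) × ℂ => (q.1, m)) (p, z) := by
        fun_prop
      have h4 : ContinuousAt (fun q : (X × StrongDual ℂ X) × ℂ => ev T q.1 q.2)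
          ((fun q : (X × StrongDual ℂ X) × ℂ => (q.1, m)) (p, z)) := continuousAt_ev hm1
      have h5 := ContinuousAt.comp (f := fun q : (X × StrongDual ℂ X) × ℂ => (q.1, m))
        (g := fun q : (X × StrongDual ℂ X) × ℂ => ev T q.1 q.2) h4 h3
      exact (h5.sub continuousAt_const).norm
    exact hc2.eventually_lt hc1 (hp z hz)
  filter_upwards [h1] with q hq
  exact ⟨m, r, hr, hsub, hq⟩

/-- in such a disc there is an isolated solution of `v((z - T)⁻¹ u) = 1` -/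
theorem exists_zero {T : X →L[ℂ] X} {D : Set ℂ} {p : X × StrongDual ℂ X} (hp : p ∈ G T D) :
    ∃ z ∈ resolventSet ℂ T ∩ D, ev T p z = 1 ∧ ∀ᶠ w in 𝓝[≠] z, ev T p w ≠ 1 := by
  obtain ⟨m, r, hr, hsub, hp⟩ := hp
  have hρ : closedBall m r ⊆ resolventSet ℂ T := fun z hz => (hsub hz).1
  have hzero : ∃ z ∈ closedBall m r, ev T p z = 1 := by
    by_contra hno
    push Not at hno
    have hsn : (sphere m r).Nonempty := NormedSpace.sphere_nonempty.2 hr.le
    obtain ⟨z₀, hz₀, hmin⟩ := (isCompact_sphere m r).exists_isMinOn hsn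
      (f := fun z => ‖ev T p z - 1‖) (by
        intro z hz
        exact ((differentiableAt_ev p
          (hρ (sphere_subset_closedBall hz))).continuousAt.sub
            continuousAt_const).norm.continuousWithinAt)
    have hdc : DiffContOnCl ℂ (fun z => (ev T p z - 1)⁻¹) (ball m r) := by
      have hd : ∀ z ∈ closedBall m r, DifferentiableAt ℂ (fun z => (ev T p z - 1)⁻¹) z :=
        fun z hz => ((differentiableAt_ev p (hρ hz)).sub_const 1).inv
          (sub_ne_zero.2 (hno z hz))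
      refine ⟨fun z hz => (hd z (ball_subset_closedBall hz)).differentiableWithinAt, ?_⟩
      rw [closure_ball m hr.ne']
      exact fun z hz => (hd z hz).continuousAt.continuousWithinAt
    have h0 : ev T p m - 1 ≠ 0 := sub_ne_zero.2 (hno m (mem_closedBall_self hr.le))
    have h0' : 0 < ‖ev T p m - 1‖ := norm_pos_iff.2 h0
    have h1 : ‖ev T p m - 1‖ < ‖ev T p z₀ - 1‖ := hp z₀ hz₀
    have h2 := Complex.norm_le_of_forall_mem_frontier_norm_le isBounded_ball hdc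
      (C := ‖ev T p z₀ - 1‖⁻¹) (by
        intro z hz
        rw [frontier_ball m hr.ne'] at hz
        rw [norm_inv]
        exact inv_anti₀ (h0'.trans h1) (isMinOn_iff.1 hmin z hz))
      (subset_closure (mem_ball_self hr))
    rw [norm_inv] at h2
    have h3 := (inv_le_inv₀ h0' (h0'.trans h1)).1 h2
    linarith
  obtain ⟨z, hz, hz1⟩ := hzero
  refine ⟨z, hsub hz, hz1, ?_⟩
  by_contra hfr
  have hfr' : ∃ᶠ w in 𝓝[≠] z, ev T p w - 1 = 0 := by
    have h1 : ∃ᶠ w in 𝓝[≠] z, ¬ (ev T p w ≠ 1) := not_eventually.1 hfr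
    refine h1.mono fun w hw => ?_
    rw [sub_eq_zero]
    exact not_not.1 hw
  have han : AnalyticOnNhd ℂ (fun w => ev T p w - 1) (closedBall m r) := fun w hw =>
    (analyticAt_ev p (hρ hw)).sub analyticAt_const
  have h1 := han.eqOn_zero_of_preconnected_of_frequently_eq_zero
    (convex_closedBall m r).isPreconnected hz hfr'
  have hsn : (sphere m r).Nonempty := NormedSpace.sphere_nonempty.2 hr.le
  obtain ⟨z₀, hz₀⟩ := hsn
  have h2 := hp z₀ hz₀
  have h3 : ev T p z₀ - 1 = 0 := h1 (sphere_subset_closedBall hz₀)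
  rw [h3, norm_zero] at h2
  exact absurd h2 (not_lt.2 (norm_nonneg _))

/-- an isolated solution gives a disc -/
theorem mem_G_of_zero {T : X →L[ℂ] X} {D : Set ℂ} (hD : IsOpen D) {p : X × StrongDual ℂ X}
    {z : ℂ} (hz : z ∈ resolventSet ℂ T ∩ D) (h1 : ev T p z = 1)
    (h2 : ∀ᶠ w in 𝓝[≠] z, ev T p w ≠ 1) : p ∈ G T D := by
  rw [eventually_nhdsWithin_iff] at h2
  have h3 : ∀ᶠ w in 𝓝 z, w ∈ resolventSet ℂ T ∩ D :=
    ((spectrum.isOpen_resolventSet T).inter hD).mem_nhds hz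
  obtain ⟨r, hr, hsub⟩ := nhds_basis_closedBall.mem_iff.1 (h2.and h3)
  refine ⟨z, r, hr, fun w hw => (hsub hw).2, ?_⟩
  intro w hw
  rw [h1, sub_self, norm_zero, norm_pos_iff, sub_ne_zero]
  refine (hsub (sphere_subset_closedBall hw)).1 ?_
  rintro rfl
  simp only [mem_sphere, dist_self] at hw
  exact hr.ne hw

omit [CompleteSpace X] in
/-- the pairs with `v((z - T)⁻¹ u) ≠ 1` are dense -/
theorem dense_ne_one {T : X →L[ℂ] X} {z : ℂ} {W : Set (X × StrongDual ℂ X)} (hW : IsOpen W)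
    (hWne : W.Nonempty) : ∃ p ∈ W, ev T p z ≠ 1 := by
  obtain ⟨p, hp⟩ := hWne
  by_cases h1 : ev T p z = 1
  · have hc : Tendsto (fun t : ℝ => (((1 + t : ℝ) : ℂ) • p.1, p.2)) (𝓝[≠] 0)
        (𝓝 (((1 + (0 : ℝ) : ℝ) : ℂ) • p.1, p.2)) := by
      refine Tendsto.mono_left (Continuous.tendsto ?_ 0) nhdsWithin_le_nhds
      fun_prop
    have hp' : (((1 + (0 : ℝ) : ℝ) : ℂ) • p.1, p.2) = p := by
      simp
    rw [hp'] at hc
    obtain ⟨t, ht1, ht2⟩ := ((hc.eventually (hW.mem_nhds hp)).and self_mem_nhdsWithin).exists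
    refine ⟨_, ht1, ?_⟩
    have h2 : ev T (((1 + t : ℝ) : ℂ) • p.1, p.2) z = ((1 + t : ℝ) : ℂ) * ev T p z := by
      simp [ev]
    rw [h2, h1, mul_one]
    intro h3
    have h4 : (1 + t : ℝ) = 1 := by exact_mod_cast h3
    exact ht2 (by simpa using h4)
  · exact ⟨p, hp, h1⟩

/-- if an open set of pairs avoids `G T D`, then there is a holomorphic function on `D` which
controls the resolvent -/
theorem avoid {T : X →L[ℂ] X} {D : Set ℂ} (hDo : IsOpen D) (hDc : Convex ℝ D)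
    {W : Set (X × StrongDual ℂ X)} (hW : IsOpen W) (hWne : W.Nonempty)
    (hWG : ∀ p ∈ W, p ∉ G T D) {α : ℂ} (hα : α ∈ resolventSet ℂ T ∩ D) :
    ∃ (Ω : Set ℂ) (p : X × StrongDual ℂ X) (C : ℝ), IsOpen Ω ∧ Ω ⊆ resolventSet ℂ T ∩ D ∧
      resolventSet ℂ T ∩ D ⊆ Ω ∧
      (∀ z ∈ Ω, ev T p z ≠ 1) ∧
      (∀ z ∈ Ω, ‖resolvent T z‖ ≤ C * ‖ev T p z - 1‖) ∧
      (∀ z ∈ Ω, ∀ s ∈ D \ Ω, ‖(ev T p z - 1)⁻¹‖ ≤ C * ‖z - s‖) ∧
      (∀ s ∈ D, ∀ᶠ z in 𝓝[≠] s, z ∈ Ω) := by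
  set O : Set ℂ := resolventSet ℂ T ∩ D with hO
  have hOo : IsOpen O := (spectrum.isOpen_resolventSet T).inter hDo
  set Ω : Set ℂ := connectedComponentIn O α with hΩ
  have hΩO : Ω ⊆ O := connectedComponentIn_subset O α
  have hΩo : IsOpen Ω := hOo.connectedComponentIn
  have hΩc : IsPreconnected Ω := isPreconnected_connectedComponentIn
  have hαΩ : α ∈ Ω := mem_connectedComponentIn hα
  have hset : IsOpen {p : X × StrongDual ℂ X | ev T p α ≠ 1} := by
    have hc : Continuous (fun p : X × StrongDual ℂ X => ev T p α) := by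
      unfold ev
      exact continuous_snd.clm_apply ((resolvent T α).continuous.comp continuous_fst)
    exact isOpen_ne_fun hc continuous_const
  obtain ⟨p, hp1, hp2⟩ := dense_ne_one (T := T) (z := α) hW hWne
  obtain ⟨r, hr, hrW⟩ := Metric.isOpen_iff.1 (hW.inter hset) p ⟨hp1, hp2⟩
  have hne : ∀ q ∈ ball p r, ∀ z ∈ Ω, ev T q z ≠ 1 := by
    intro q hq z hz h1
    have hqW := hrW hq
    refine hWG q hqW.1 (mem_G_of_zero hDo (hΩO hz) h1 ?_)
    by_contra hfr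
    have hfr' : ∃ᶠ w in 𝓝[≠] z, ev T q w - 1 = 0 := by
      have h2 : ∃ᶠ w in 𝓝[≠] z, ¬ (ev T q w ≠ 1) := not_eventually.1 hfr
      refine h2.mono fun w hw => ?_
      rw [sub_eq_zero]
      exact not_not.1 hw
    have han : AnalyticOnNhd ℂ (fun w => ev T q w - 1) Ω := fun w hw =>
      (analyticAt_ev q (hΩO hw).1).sub analyticAt_const
    have h3 := han.eqOn_zero_of_preconnected_of_frequently_eq_zero hΩc hz hfr'
    exact hqW.2 (sub_eq_zero.1 (h3 hαΩ))
  have hres : ∀ z ∈ Ω, ‖resolvent T z‖ ≤ 3 / r ^ 2 * ‖ev T p z - 1‖ := fun z hz =>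
    res_bound hr fun q hq => hne q hq z hz
  have hCpos : (0 : ℝ) < 3 / r ^ 2 := by positivity
  have hinv : ∀ z ∈ Ω, ∀ s ∈ D \ Ω, ‖(ev T p z - 1)⁻¹‖ ≤ 3 / r ^ 2 * ‖z - s‖ := by
    intro z hz s hs
    have hseg : segment ℝ z s ⊆ D := hDc.segment_subset (hΩO hz).2 hs.1
    obtain ⟨s', hs'2, hs'1, hs'3⟩ : ∃ s', s' ∈ closure Ω ∧ s' ∈ segment ℝ z s ∧ s' ∉ Ω := by
      by_contra hno
      push Not at hno
      exact hs.2 ((convex_segment z s).isPreconnected.subset_of_closure_inter_subset hΩo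
        ⟨z, left_mem_segment ℝ z s, hz⟩ (fun w hw => hno w hw.1 hw.2)
        (right_mem_segment ℝ z s))
    have hs'σ : s' ∉ resolventSet ℂ T := by
      intro hρ
      have hs'O : s' ∈ O := ⟨hρ, hseg hs'1⟩
      have h1 : connectedComponentIn O s' ∈ 𝓝 s' :=
        (hOo.connectedComponentIn).mem_nhds (mem_connectedComponentIn hs'O)
      obtain ⟨w, hw1, hw2⟩ := mem_closure_iff_nhds.1 hs'2 _ h1
      have h3 : connectedComponentIn O s' = Ω :=
        (connectedComponentIn_eq hw1).trans (connectedComponentIn_eq hw2).symm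
      exact hs'3 (h3 ▸ mem_connectedComponentIn hs'O)
    have h5 : ‖z - s'‖ ≤ ‖z - s‖ := by
      obtain ⟨a, b, ha, hb, hab, rfl⟩ := hs'1
      have : z - (a • z + b • s) = b • (z - s) := by
        have ha' : a = 1 - b := by linarith
        rw [ha']
        module
      rw [this, norm_smul, Real.norm_of_nonneg hb]
      have hb1 : b ≤ 1 := by linarith
      nlinarith [norm_nonneg (z - s)]
    have h6 := one_le_norm_res (hΩO hz).1 hs'σ
    have h7 := hres z hz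
    have h8 : 0 < ‖ev T p z - 1‖ :=
      norm_pos_iff.2 (sub_ne_zero.2 (hne p (mem_ball_self hr) z hz))
    rw [norm_inv, inv_le_iff_one_le_mul₀ h8]
    calc (1 : ℝ) ≤ ‖z - s'‖ * ‖resolvent T z‖ := h6
      _ ≤ ‖z - s‖ * (3 / r ^ 2 * ‖ev T p z - 1‖) :=
          mul_le_mul h5 h7 (norm_nonneg _) (norm_nonneg _)
      _ = 3 / r ^ 2 * ‖z - s‖ * ‖ev T p z - 1‖ := by ring
  have hiso : ∀ s ∈ D, ∀ᶠ z in 𝓝[≠] s, z ∈ Ω := by
    refine all_isolated (h := fun z => (ev T p z - 1)⁻¹) hDo hDc.isPreconnected hΩo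
      (fun z hz => (hΩO hz).2) ⟨α, hαΩ⟩ ?_ ?_ hinv
    · intro z hz
      exact ((differentiableAt_ev p (hΩO hz).1).sub_const 1).inv
        (sub_ne_zero.2 (hne p (mem_ball_self hr) z hz))
    · intro z hz
      exact inv_ne_zero (sub_ne_zero.2 (hne p (mem_ball_self hr) z hz))
  refine ⟨Ω, p, 3 / r ^ 2, hΩo, hΩO, ?_, hne p (mem_ball_self hr), hres, hinv, hiso⟩
  intro z hz
  by_contra hzΩ
  have hlim : Tendsto (fun w : ℂ => ‖ev T p w - 1‖ * (3 / r ^ 2 * ‖w - z‖)) (𝓝[≠] z)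
      (𝓝 (‖ev T p z - 1‖ * (3 / r ^ 2 * ‖z - z‖))) := by
    refine Tendsto.mono_left ?_ nhdsWithin_le_nhds
    refine Tendsto.mul ?_ ?_
    · exact ((differentiableAt_ev p hz.1).continuousAt.sub continuousAt_const).norm
    · apply Continuous.tendsto
      fun_prop
  rw [sub_self, norm_zero, mul_zero, mul_zero] at hlim
  have h1 : (1 : ℝ) ≤ 0 := by
    refine ge_of_tendsto hlim ?_
    filter_upwards [hiso z hz.2] with w hw
    have h2 := hinv w hw z ⟨hz.2, hzΩ⟩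
    have h3 : 0 < ‖ev T p w - 1‖ :=
      norm_pos_iff.2 (sub_ne_zero.2 (hne p (mem_ball_self hr) w hw))
    rw [norm_inv, inv_le_iff_one_le_mul₀ h3] at h2
    linarith
  exact absurd h1 (by norm_num)

/-- near a point which is neither a regular point nor a pole the good pairs are dense -/
theorem dense_G {T : X →L[ℂ] X} {D : Set ℂ} (hDo : IsOpen D) (hDc : Convex ℝ D) {c : ℂ}
    (hcD : c ∈ D) (hc : c ∈ closure (resolventSet ℂ T)) (hnp : ¬ RegularOrPole T c) :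
    Dense (G T D) := by
  rw [dense_iff_inter_open]
  intro W hW hWne
  by_contra hemp
  have hWG : ∀ p ∈ W, p ∉ G T D := fun p hp hpG => hemp ⟨p, hp, hpG⟩
  obtain ⟨α, hα1, hα2⟩ := mem_closure_iff.1 hc D hDo hcD
  obtain ⟨Ω, p, C, hΩo, hΩO, hOΩ, hne, hres, hinv, hiso⟩ := avoid hDo hDc hW hWne hWG ⟨hα2, hα1⟩
  have hd : ∀ z ∈ Ω, DifferentiableAt ℂ (fun z => (ev T p z - 1)⁻¹) z := by
    intro z hz
    exact ((differentiableAt_ev p (hΩO hz).1).sub_const 1).inv (sub_ne_zero.2 (hne z hz))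
  have hne' : ∀ z ∈ Ω, (ev T p z - 1)⁻¹ ≠ 0 := fun z hz =>
    inv_ne_zero (sub_ne_zero.2 (hne z hz))
  obtain ⟨n, k, hk, hord⟩ := exists_order (h := fun z => (ev T p z - 1)⁻¹) hΩo hd hne' hinv
    hiso hcD
  apply hnp
  refine ⟨n, |C| / k, ?_⟩
  filter_upwards [hord, hiso c hcD] with z hz1 hz2
  refine ⟨(hΩO hz2).1, ?_⟩
  have h1 : 0 < ‖ev T p z - 1‖ := norm_pos_iff.2 (sub_ne_zero.2 (hne z hz2))
  have h2 : ‖resolvent T z‖ ≤ |C| * ‖ev T p z - 1‖ :=
    (hres z hz2).trans (mul_le_mul_of_nonneg_right (le_abs_self C) (norm_nonneg _))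
  rw [norm_inv] at hz1
  have h3 : k * ‖z - c‖ ^ n * ‖ev T p z - 1‖ ≤ 1 := by
    calc k * ‖z - c‖ ^ n * ‖ev T p z - 1‖ ≤ ‖ev T p z - 1‖⁻¹ * ‖ev T p z - 1‖ :=
          mul_le_mul_of_nonneg_right hz1 h1.le
      _ = 1 := inv_mul_cancel₀ h1.ne'
  rw [le_div_iff₀ hk]
  calc ‖z - c‖ ^ n * ‖resolvent T z‖ * k ≤ ‖z - c‖ ^ n * (|C| * ‖ev T p z - 1‖) * k := by
        gcongr
    _ = |C| * (k * ‖z - c‖ ^ n * ‖ev T p z - 1‖) := by ring
    _ ≤ |C| * 1 := mul_le_mul_of_nonneg_left h3 (abs_nonneg C)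
    _ = |C| := mul_one _

/-- for `D = ℂ` the good pairs are always dense -/
theorem dense_G_univ [Nontrivial X] (T : X →L[ℂ] X) : Dense (G T univ) := by
  rw [dense_iff_inter_open]
  intro W hW hWne
  by_contra hemp
  have hWG : ∀ p ∈ W, p ∉ G T univ := fun p hp hpG => hemp ⟨p, hp, hpG⟩
  obtain ⟨s, hs⟩ := spectrum.nonempty T
  have hcob : ∀ᶠ z in Bornology.cobounded ℂ, z ∈ resolventSet ℂ T := by
    have h1 : (spectrum ℂ T)ᶜ ∈ Bornology.cobounded ℂ := (spectrum.isBounded T)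
    filter_upwards [h1] with z hz
    exact not_not.1 hz
  obtain ⟨α, hα⟩ := hcob.exists
  obtain ⟨Ω, p, C, hΩo, hΩO, hOΩ, hne, hres, hinv, hiso⟩ := avoid isOpen_univ convex_univ hW
    hWne hWG ⟨hα, mem_univ α⟩
  have hd : ∀ z ∈ Ω, DifferentiableAt ℂ (fun z => (ev T p z - 1)⁻¹) z := by
    intro z hz
    exact ((differentiableAt_ev p (hΩO hz).1).sub_const 1).inv (sub_ne_zero.2 (hne z hz))
  classical
  have hent : Differentiable ℂ (fun z => if z ∈ Ω then (ev T p z - 1)⁻¹ else 0) := fun z =>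
    (analyticAt_ext (h := fun z => (ev T p z - 1)⁻¹) hΩo hd hinv hiso
      (mem_univ z)).differentiableAt
  have hlim : Tendsto (fun z => if z ∈ Ω then (ev T p z - 1)⁻¹ else 0) (cocompact ℂ)
      (𝓝 (-1)) := by
    rw [← Metric.cobounded_eq_cocompact]
    have h1 : Tendsto (fun z => (ev T p z - 1)⁻¹) (Bornology.cobounded ℂ)
        (𝓝 ((0 : ℂ) - 1)⁻¹) :=
      ((ev_tendsto_zero T p).sub_const 1).inv₀ (by norm_num)
    have h2 : ((0 : ℂ) - 1)⁻¹ = -1 := by norm_num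
    rw [h2] at h1
    refine h1.congr' ?_
    filter_upwards [hcob] with z hz
    rw [if_pos (hOΩ ⟨hz, mem_univ z⟩)]
  have h3 := hent.apply_eq_of_tendsto_cocompact s hlim
  have hsΩ : s ∉ Ω := fun h => hs (hΩO h).1
  simp only [hsΩ, if_false] at h3
  norm_num at h3

end Pool.Agent.J6H34.GRO
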