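import Pool.Agent.J6H34.GRO.Hyper

/-!
# Half-spaces in infinite dimensional spaces, and rank one perturbations of algebraic operators
-/

namespace Pool.Agent.J6H34.GRO

open Filter Topology Metric Set Polynomial

theorem fd_of_ker {V W : Type*} [AddCommGroup V] [Module ℂ V] [AddCommGroup W] [Module ℂ W]
    (f : V →ₗ[ℂ] W) (h1 : FiniteDimensional ℂ (LinearMap.ker f))
    (h2 : FiniteDimensional ℂ W) : FiniteDimensional ℂ V := by
  have : FiniteDimensional ℂ (LinearMap.range f) := inferInstance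
  have : FiniteDimensional ℂ (V ⧸ LinearMap.ker f) :=
    Module.Finite.equiv f.quotKerEquivRange.symm
  exact Module.Finite.of_submodule_quotient (LinearMap.ker f)

/-- a linear map on a subspace whose kernel is contained in a finite dimensional space -/
theorem fd_of_le {V W : Type*} [AddCommGroup V] [Module ℂ V] [AddCommGroup W] [Module ℂ W]
    (N S : Submodule ℂ V) (f : V →ₗ[ℂ] W) (hS : FiniteDimensional ℂ S)
    (hW : FiniteDimensional ℂ W) (h : ∀ v ∈ N, f v = 0 → v ∈ S) : FiniteDimensional ℂ N := by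
  refine fd_of_ker (f.comp N.subtype) ?_ hW
  have h1 : ∀ v ∈ LinearMap.ker (f.comp N.subtype), (v : V) ∈ S := by
    intro v hv
    exact h v v.2 hv
  let g : LinearMap.ker (f.comp N.subtype) →ₗ[ℂ] S :=
    { toFun := fun v => ⟨(v : N), h1 v v.2⟩
      map_add' := fun _ _ => rfl
      map_smul' := fun _ _ => rfl }
  have hg : Function.Injective g := by
    intro v w hvw
    have := congrArg (fun s : S => (s : V)) hvw
    exact Subtype.ext (Subtype.ext this)
  exact FiniteDimensional.of_injective g hg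

variable {X : Type*} [NormedAddCommGroup X] [NormedSpace ℂ X]

theorem exists_sep (S : Submodule ℂ X) (hS : FiniteDimensional ℂ S) {y : X} (hy : y ∉ S) :
    ∃ ψ : StrongDual ℂ X, ψ y = 1 ∧ ∀ x ∈ S, ψ x = 0 := by
  have : IsClosed (S : Set X) := S.closed_of_finiteDimensional
  have h1 : ‖S.mkQL y‖ ≠ 0 := by
    rw [norm_ne_zero_iff]
    simpa using hy
  obtain ⟨g, -, hg⟩ := exists_dual_vector ℂ (S.mkQL y) h1
  have h2 : g (S.mkQL y) ≠ 0 := by
    rw [hg]
    exact RCLike.ofReal_ne_zero.2 h1
  refine ⟨(g (S.mkQL y))⁻¹ • (g.comp S.mkQL), ?_, ?_⟩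
  · simp only [smul_apply, ContinuousLinearMap.comp_apply, smul_eq_mul]
    exact inv_mul_cancel₀ h2
  · intro x hx
    have h3 : S.mkQL x = 0 := by simpa using hx
    simp only [smul_apply, ContinuousLinearMap.comp_apply]
    rw [h3, map_zero, smul_zero]

/-- biorthogonal sequences in an infinite dimensional subspace -/
theorem exists_biorth (N : Submodule ℂ X) (hN : ¬ FiniteDimensional ℂ N) :
    ∃ (x : ℕ → X) (y : ℕ → StrongDual ℂ X), (∀ n, x n ∈ N) ∧ (∀ n, y n (x n) = 1) ∧
      ∀ m n, m ≠ n → y m (x n) = 0 := by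
  classical
  let r : X × StrongDual ℂ X → X × StrongDual ℂ X → Prop := fun a b => a.2 b.1 = 0 ∧ b.2 a.1 = 0
  have : Std.Symm r := ⟨fun a b hab => ⟨hab.2, hab.1⟩⟩
  obtain ⟨f, hf1, hf2⟩ := exists_seq_of_forall_finset_exists'
    (fun a : X × StrongDual ℂ X => a.1 ∈ N ∧ a.2 a.1 = 1) r (by
      intro s _
      set S : Submodule ℂ X := Submodule.span ℂ (s.image Prod.fst : Set X) with hS
      have hSfd : FiniteDimensional ℂ S :=
        FiniteDimensional.span_of_finite ℂ (Finset.finite_toSet _)
      let L : X →ₗ[ℂ] (s → ℂ) := LinearMap.pi fun a => (a.1.2 : X →ₗ[ℂ] ℂ)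
      have hex : ∃ v ∈ N, L v = 0 ∧ v ∉ S := by
        by_contra hno
        push Not at hno
        exact hN (fd_of_le N S L hSfd inferInstance hno)
      obtain ⟨v, hvN, hvL, hvS⟩ := hex
      obtain ⟨ψ, hψ1, hψ2⟩ := exists_sep S hSfd hvS
      refine ⟨(v, ψ), ⟨hvN, hψ1⟩, ?_⟩
      intro a ha
      refine ⟨?_, ?_⟩
      · exact congrFun hvL ⟨a, ha⟩
      · exact hψ2 a.1 (Submodule.subset_span (by
          simp only [Finset.coe_image, mem_image, Finset.mem_coe]
          exact ⟨a, ha, rfl⟩)))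
  exact ⟨fun n => (f n).1, fun n => (f n).2, fun n => (hf1 n).1, fun n => (hf1 n).2,
    fun m n hmn => (hf2 hmn).1⟩

/-- every infinite dimensional closed subspace contains a closed subspace of infinite dimension
and infinite codimension -/
theorem exists_half_in (N : Submodule ℂ X) (hN : ¬ FiniteDimensional ℂ N)
    (hNc : IsClosed (N : Set X)) :
    ∃ M : Submodule ℂ X, M ≤ N ∧ IsClosed (M : Set X) ∧ ¬ FiniteDimensional ℂ M ∧
      ¬ FiniteDimensional ℂ (X ⧸ M) := by
  obtain ⟨x, y, hxN, h1, h2⟩ := exists_biorth N hN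
  set A : Set ℕ := {n | Even n} with hA
  have hAinf : A.Infinite :=
    Set.infinite_of_injective_forall_mem (f := fun n : ℕ => 2 * n)
      (fun a b h => by simpa using h) (fun n => ⟨n, by ring⟩)
  have hAcinf : Aᶜ.Infinite := by
    have : Aᶜ = {n | Odd n} := by
      ext n
      simp [hA]
    rw [this]
    exact Set.infinite_of_injective_forall_mem (f := fun n : ℕ => 2 * n + 1)
      (fun a b h => by simpa using h) (fun n => ⟨n, by ring⟩)
  set F : Submodule ℂ X := (Submodule.span ℂ (x '' A)).topologicalClosure with hF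
  have hxF : ∀ k ∈ A, x k ∈ F := fun k hk =>
    Submodule.le_topologicalClosure _ (Submodule.subset_span ⟨k, hk, rfl⟩)
  have hyF : ∀ k ∉ A, ∀ v ∈ F, y k v = 0 := by
    intro k hk v hv
    have h3 : Submodule.span ℂ (x '' A) ≤ LinearMap.ker (y k : X →ₗ[ℂ] ℂ) := by
      rw [Submodule.span_le]
      rintro _ ⟨j, hj, rfl⟩
      exact h2 k j (fun h => hk (h ▸ hj))
    have h4 : F ≤ LinearMap.ker (y k : X →ₗ[ℂ] ℂ) :=
      Submodule.topologicalClosure_minimal _ h3 (ContinuousLinearMap.isClosed_ker (y k))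
    exact h4 hv
  refine ⟨F, ?_, Submodule.isClosed_topologicalClosure _, ?_, ?_⟩
  · refine Submodule.topologicalClosure_minimal _ ?_ hNc
    rw [Submodule.span_le]
    rintro _ ⟨k, _, rfl⟩
    exact hxN k
  · intro hfd
    have hli : LinearIndependent ℂ (fun k : A => (⟨x k, hxF k k.2⟩ : F)) := by
      refine linInd_of_biorth (y := fun k : A => (y k : X →ₗ[ℂ] ℂ).comp F.subtype) ?_ ?_
      · intro k
        have : y k (x k) ≠ 0 := by rw [h1]; exact one_ne_zero
        exact this
      · intro i j hij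
        exact h2 i j (fun h => hij (Subtype.ext h.symm))
    have := hli.finite
    exact hAinf (Set.toFinite A)
  · intro hfd
    have hli : LinearIndependent ℂ (fun k : (Aᶜ : Set ℕ) => F.mkQ (x k)) := by
      have hker : ∀ k : (Aᶜ : Set ℕ), F ≤ LinearMap.ker (y k : X →ₗ[ℂ] ℂ) := fun k v hv =>
        hyF k k.2 v hv
      refine linInd_of_biorth
        (y := fun k : (Aᶜ : Set ℕ) => F.liftQ (y k : X →ₗ[ℂ] ℂ) (hker k)) ?_ ?_
      · intro k
        simp only [Submodule.mkQ_apply, Submodule.liftQ_apply]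
        have : y k (x k) ≠ 0 := by rw [h1]; exact one_ne_zero
        exact this
      · intro i j hij
        simp only [Submodule.mkQ_apply, Submodule.liftQ_apply]
        exact h2 i j (fun h => hij (Subtype.ext h.symm))
    have := hli.finite
    exact hAcinf (Set.toFinite (Aᶜ : Set ℕ))

/-- an algebraic operator on an infinite dimensional space has an eigenspace of infinite
dimension -/
theorem exists_big_eigenspace {T : X →L[ℂ] X} (hT : IsAlgebraic ℂ T)
    (hX : ¬ FiniteDimensional ℂ X) :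
    ∃ a : ℂ, ¬ FiniteDimensional ℂ
      (LinearMap.ker ((T - algebraMap ℂ (X →L[ℂ] X) a : X →L[ℂ] X) : X →ₗ[ℂ] X)) := by
  by_contra hno
  push Not at hno
  have key : ∀ n : ℕ, ∀ p : ℂ[X], p.natDegree = n → p ≠ 0 →
      FiniteDimensional ℂ (LinearMap.ker ((aeval T p : X →L[ℂ] X) : X →ₗ[ℂ] X)) := by
    intro n
    induction n with
    | zero =>
      intro p hp hp0
      rw [Polynomial.natDegree_eq_zero] at hp
      obtain ⟨a, rfl⟩ := hp
      have ha : a ≠ 0 := by
        rintro rfl
        exact hp0 (by simp)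
      have hbot : LinearMap.ker ((aeval T (Polynomial.C a) : X →L[ℂ] X) : X →ₗ[ℂ] X) = ⊥ := by
        rw [LinearMap.ker_eq_bot']
        intro v hv
        rw [aeval_C, Algebra.algebraMap_eq_smul_one] at hv
        have hv' : a • v = 0 := hv
        exact (smul_eq_zero.1 hv').resolve_left ha
      rw [hbot]
      infer_instance
    | succ n ih =>
      intro p hp hp0
      have hdeg : p.degree ≠ 0 := by
        intro h
        rw [Polynomial.degree_eq_natDegree hp0, hp] at h
        have h' : n + 1 = 0 := by exact_mod_cast h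
        omega
      obtain ⟨a, ha⟩ := IsAlgClosed.exists_root p hdeg
      obtain ⟨q, hq⟩ := dvd_iff_isRoot.2 ha
      have hq0 : q ≠ 0 := by
        rintro rfl
        exact hp0 (by rw [hq, mul_zero])
      have hqd : q.natDegree = n := by
        rw [hq, natDegree_mul (X_sub_C_ne_zero a) hq0, natDegree_X_sub_C] at hp
        omega
      have := ih q hqd hq0
      have := hno a
      set K := LinearMap.ker ((aeval T p : X →L[ℂ] X) : X →ₗ[ℂ] X) with hK
      set E := LinearMap.ker ((T - algebraMap ℂ (X →L[ℂ] X) a : X →L[ℂ] X) : X →ₗ[ℂ] X) with hE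
      have hmap : ∀ v ∈ K, (aeval T q : X →L[ℂ] X) v ∈ E := by
        intro v hv
        have h1 : (aeval T p : X →L[ℂ] X) v = 0 := hv
        rw [hq, map_mul, map_sub, aeval_X, aeval_C, mul_apply_eq_comp] at h1
        exact h1
      let f : K →ₗ[ℂ] E :=
        { toFun := fun v => ⟨(aeval T q : X →L[ℂ] X) v, hmap v v.2⟩
          map_add' := fun v w => Subtype.ext (map_add (aeval T q : X →L[ℂ] X) (v : X) w)
          map_smul' := fun c v => Subtype.ext (map_smul (aeval T q : X →L[ℂ] X) c (v : X)) }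
      refine fd_of_ker f ?_ inferInstance
      let g : LinearMap.ker f →ₗ[ℂ]
          LinearMap.ker ((aeval T q : X →L[ℂ] X) : X →ₗ[ℂ] X) :=
        { toFun := fun v => ⟨((v : K) : X), by
            have h1 : f (v : K) = 0 := v.2
            exact congrArg (fun s : E => (s : X)) h1⟩
          map_add' := fun _ _ => rfl
          map_smul' := fun _ _ => rfl }
      have hg : Function.Injective g := by
        intro v w hvw
        have := congrArg
          (fun s : LinearMap.ker ((aeval T q : X →L[ℂ] X) : X →ₗ[ℂ] X) => (s : X)) hvw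
        exact Subtype.ext (Subtype.ext this)
      exact FiniteDimensional.of_injective g hg
  obtain ⟨p, hp0, hp⟩ := hT
  have h1 := key p.natDegree p rfl hp0
  rw [hp] at h1
  have h2 : LinearMap.ker (((0 : X →L[ℂ] X)) : X →ₗ[ℂ] X) = ⊤ := by
    ext v
    simp
  rw [h2] at h1
  exact hX (Module.Finite.equiv (Submodule.topEquiv (R := ℂ) (M := X)))

/-- all rank one perturbations of an algebraic operator have invariant half-spaces -/
theorem half_of_algebraic {T : X →L[ℂ] X} (hT : IsAlgebraic ℂ T)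
    (hX : ¬ FiniteDimensional ℂ X) (p : X × StrongDual ℂ X) :
    ∃ M : Submodule ℂ X, IsClosed (M : Set X) ∧ (∀ x ∈ M, pert T p x ∈ M) ∧
      ¬ FiniteDimensional ℂ M ∧ ¬ FiniteDimensional ℂ (X ⧸ M) := by
  obtain ⟨a, ha⟩ := exists_big_eigenspace hT hX
  set E := LinearMap.ker ((T - algebraMap ℂ (X →L[ℂ] X) a : X →L[ℂ] X) : X →ₗ[ℂ] X) with hE
  set N : Submodule ℂ X := E ⊓ LinearMap.ker (p.2 : X →ₗ[ℂ] ℂ) with hN
  have hNinf : ¬ FiniteDimensional ℂ N := by
    intro hfd
    exact ha (fd_of_le E N (p.2 : X →ₗ[ℂ] ℂ) hfd inferInstance fun v hv hv2 => ⟨hv, hv2⟩)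
  have hNc : IsClosed (N : Set X) := by
    have h1 : IsClosed (E : Set X) := ContinuousLinearMap.isClosed_ker _
    have h2 : IsClosed ((LinearMap.ker (p.2 : X →ₗ[ℂ] ℂ) : Submodule ℂ X) : Set X) :=
      ContinuousLinearMap.isClosed_ker _
    exact h1.inter h2
  obtain ⟨M, hMN, hMc, hM1, hM2⟩ := exists_half_in N hNinf hNc
  refine ⟨M, hMc, ?_, hM1, hM2⟩
  intro x hx
  have hxN := hMN hx
  have h1 : T x = a • x := by
    have h3 : (T - algebraMap ℂ (X →L[ℂ] X) a) x = 0 := hxN.1
    rw [Algebra.algebraMap_eq_smul_one] at h3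
    have h4 : T x - a • x = 0 := h3
    exact sub_eq_zero.1 h4
  have h2 : p.2 x = 0 := hxN.2
  rw [pert_apply, h1, h2, zero_smul, add_zero]
  exact M.smul_mem a hx

end Pool.Agent.J6H34.GRO
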