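import Pool.Agent.J6H34.GRO.Dense

/-!
# Many hyperinvariant subspaces from infinitely many eigenvalues
-/

namespace Pool.Agent.J6H34.GRO

open Filter Topology Metric Set

variable {X : Type*} [NormedAddCommGroup X] [NormedSpace ℂ X] [CompleteSpace X]

/-- the isolated solutions of `v((z - T)⁻¹ u) = 1` in the resolvent set -/
def Z (T : X →L[ℂ] X) (p : X × StrongDual ℂ X) : Set ℂ :=
  {z | z ∈ resolventSet ℂ T ∧ ev T p z = 1 ∧ ∀ᶠ w in 𝓝[≠] z, ev T p w ≠ 1}

theorem exists_functional {T : X →L[ℂ] X} {p : X × StrongDual ℂ X} {m : ℂ} (hm : m ∈ Z T p) :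
    ∃ y : StrongDual ℂ X, y (resolvent T m p.1) ≠ 0 ∧
      ∀ m' ∈ Z T p, m' ≠ m → y (resolvent T m' p.1) = 0 := by
  obtain ⟨hmρ, hm1, hm2⟩ := hm
  rw [eventually_nhdsWithin_iff] at hm2
  have h3 : ∀ᶠ w in 𝓝 m, w ∈ resolventSet ℂ T := (spectrum.isOpen_resolventSet T).mem_nhds hmρ
  obtain ⟨r, hr, hsub⟩ := nhds_basis_closedBall.mem_iff.1 (hm2.and h3)
  have hρ : ∀ z ∈ closedBall m r, z ∈ resolventSet ℂ T := fun z hz => (hsub hz).2
  have hne : ∀ z ∈ closedBall m r, z ≠ m → ev T p z ≠ 1 := fun z hz hzm => (hsub hz).1 hzm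
  have hsm : ∀ z ∈ sphere m r, z ≠ m := by
    rintro z hz rfl
    simp only [mem_sphere, dist_self] at hz
    exact hr.ne hz
  have hsne : ∀ z ∈ sphere m r, ev T p z - 1 ≠ 0 := fun z hz =>
    sub_ne_zero.2 (hne z (sphere_subset_closedBall hz) (hsm z hz))
  set Φ : ℂ → StrongDual ℂ X := fun z => (ev T p z - 1)⁻¹ • (p.2.comp (resolvent T z)) with hΦ
  have hΦc : ContinuousOn Φ (sphere m r) := by
    intro z hz
    apply ContinuousAt.continuousWithinAt
    have hz' := hρ z (sphere_subset_closedBall hz)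
    have h1 : ContinuousAt (fun z => (ev T p z - 1)⁻¹) z :=
      ((differentiableAt_ev p hz').continuousAt.sub continuousAt_const).inv₀ (hsne z hz)
    have h2 : ContinuousAt (fun z => p.2.comp (resolvent T z)) z :=
      continuousAt_const.clm_comp (hasDerivAt_res hz').continuousAt
    exact h1.smul h2
  have hint : CircleIntegrable Φ m r := by
    refine ContinuousOn.circleIntegrable hr.le hΦc
  set y : StrongDual ℂ X := ∮ z in C(m, r), Φ z with hy
  have hyx : ∀ x : X, y x = ∮ z in C(m, r), Φ z x := by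
    intro x
    rw [hy, circleIntegral, circleIntegral]
    rw [ContinuousLinearMap.intervalIntegral_apply hint.out]
    rfl
  have hval : ∀ m' ∈ Z T p, ∀ z ∈ sphere m r, Φ z (resolvent T m' p.1) = -(z - m')⁻¹ := by
    intro m' hm' z hz
    have hzm' : z ≠ m' := by
      rintro rfl
      exact hsne z hz (sub_eq_zero.2 hm'.2.1)
    have h1 := res_res (hρ z (sphere_subset_closedBall hz)) hm'.1 p.1
    have h2 := congrArg p.2 h1
    rw [map_smul, map_sub] at h2
    have h3 : p.2 (resolvent T m' p.1) = 1 := hm'.2.1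
    rw [h3, smul_eq_mul] at h2
    have h4 : Φ z (resolvent T m' p.1)
        = (ev T p z - 1)⁻¹ * p.2 (resolvent T z (resolvent T m' p.1)) := by
      simp [hΦ]
    rw [h4]
    have h5 : m' - z ≠ 0 := sub_ne_zero.2 hzm'.symm
    have h6 : p.2 (resolvent T z (resolvent T m' p.1)) = (ev T p z - 1) / (m' - z) := by
      rw [eq_div_iff h5, mul_comm]
      exact h2
    rw [h6, ← mul_div_assoc, inv_mul_cancel₀ (hsne z hz), one_div, ← neg_sub z m', inv_neg]
  refine ⟨y, ?_, ?_⟩
  · rw [hyx, circleIntegral.integral_congr hr.le (hval m ⟨hmρ, hm1, by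
      rw [eventually_nhdsWithin_iff]; exact hm2⟩)]
    have h1 : (∮ z in C(m, r), -(z - m)⁻¹) = -(2 * Real.pi * Complex.I) := by
      have h2 := circleIntegral.integral_sub_center_inv m hr.ne'
      rw [← h2, circleIntegral, circleIntegral]
      simp only [smul_neg]
      rw [intervalIntegral.integral_neg]
    rw [h1]
    exact neg_ne_zero.2 Complex.two_pi_I_ne_zero
  · intro m' hm' hne'
    rw [hyx, circleIntegral.integral_congr hr.le (hval m' hm')]
    have hout : m' ∉ closedBall m r := fun h => hne m' h hne' hm'.2.1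
    refine Complex.circleIntegral_eq_zero_of_differentiable_on_off_countable hr.le
      countable_empty ?_ ?_
    · intro z hz
      have : z - m' ≠ 0 := sub_ne_zero.2 (by rintro rfl; exact hout hz)
      exact (((continuousAt_id.sub continuousAt_const).inv₀ this).neg).continuousWithinAt
    · intro z hz
      have : z - m' ≠ 0 :=
        sub_ne_zero.2 (by rintro rfl; exact hout (ball_subset_closedBall hz.1))
      exact ((differentiableAt_id.sub_const m').inv this).neg

/-- biorthogonal functionals show linear independence -/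
theorem linInd_of_biorth {V ι : Type*} [AddCommGroup V] [Module ℂ V] {x : ι → V}
    {y : ι → (V →ₗ[ℂ] ℂ)} (h1 : ∀ i, y i (x i) ≠ 0) (h2 : ∀ i j, j ≠ i → y i (x j) = 0) :
    LinearIndependent ℂ x := by
  rw [linearIndependent_iff']
  intro s g hg i hi
  have h3 := congrArg (y i) hg
  rw [map_sum, map_zero, Finset.sum_eq_single i] at h3
  · rw [map_smul, smul_eq_mul] at h3
    exact (mul_eq_zero.1 h3).resolve_right (h1 i)
  · intro j _ hji
    rw [map_smul, h2 i j hji, smul_zero]
  · intro h
    exact absurd hi h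

theorem lattice {T : X →L[ℂ] X} {p : X × StrongDual ℂ X} (hZ : (Z T p).Infinite) :
    ∃ M : Set ℕ ↪o Submodule ℂ X, ∀ A : Set ℕ, Hyperinvariant (pert T p) (M A) ∧
      (A.Infinite → ¬ FiniteDimensional ℂ (M A)) ∧
      (Aᶜ.Infinite → ¬ FiniteDimensional ℂ (X ⧸ M A)) := by
  set e := hZ.natEmbedding with he
  set m : ℕ → ℂ := fun k => (e k : ℂ) with hm
  have hmZ : ∀ k, m k ∈ Z T p := fun k => (e k).2
  have hminj : Function.Injective m := fun i j h => e.injective (Subtype.ext h)
  set x : ℕ → X := fun k => resolvent T (m k) p.1 with hx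
  choose y hy1 hy2 using fun k => exists_functional (hmZ k)
  have hy2' : ∀ i j, j ≠ i → y i (x j) = 0 := fun i j hij =>
    hy2 i (m j) (hmZ j) (fun h => hij (hminj h))
  set F : Set ℕ → Submodule ℂ X := fun A =>
    (Submodule.span ℂ (x '' A)).topologicalClosure with hF
  have hxF : ∀ A : Set ℕ, ∀ k ∈ A, x k ∈ F A := fun A k hk =>
    Submodule.le_topologicalClosure _ (Submodule.subset_span ⟨k, hk, rfl⟩)
  have hyF : ∀ A : Set ℕ, ∀ k ∉ A, ∀ v ∈ F A, y k v = 0 := by
    intro A k hk v hv
    have h1 : Submodule.span ℂ (x '' A) ≤ LinearMap.ker (y k : X →ₗ[ℂ] ℂ) := by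
      rw [Submodule.span_le]
      rintro _ ⟨j, hj, rfl⟩
      exact hy2' k j (fun h => hk (h ▸ hj))
    have h2 : F A ≤ LinearMap.ker (y k : X →ₗ[ℂ] ℂ) :=
      Submodule.topologicalClosure_minimal _ h1 (ContinuousLinearMap.isClosed_ker (y k))
    exact h2 hv
  have hmono : ∀ A B : Set ℕ, F A ≤ F B ↔ A ⊆ B := by
    intro A B
    constructor
    · intro h k hk
      by_contra hkB
      exact hy1 k (hyF B k hkB _ (h (hxF A k hk)))
    · intro h
      exact Submodule.topologicalClosure_mono (Submodule.span_mono (image_mono h))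
  refine ⟨OrderEmbedding.ofMapLEIff F hmono, ?_⟩
  intro A
  have hFA : OrderEmbedding.ofMapLEIff F hmono A = F A := rfl
  rw [hFA]
  refine ⟨⟨Submodule.isClosed_topologicalClosure _, ?_⟩, ?_, ?_⟩
  · intro B hB v hv
    have hBx : ∀ k ∈ A, B (x k) ∈ Submodule.span ℂ (x '' A) := by
      intro k hk
      have h1 : pert T p (x k) = m k • x k := (eig_of_ev (hmZ k).1 (hmZ k).2.1).2
      have h2 : pert T p (B (x k)) = m k • B (x k) := by
        have h3 := congrArg (fun S : X →L[ℂ] X => S (x k)) hB.eq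
        simp only [mul_apply_eq_comp] at h3
        rw [h3, h1, map_smul]
      rw [eq_smul_of_eig (hmZ k).1 h2]
      exact Submodule.smul_mem _ _ (Submodule.subset_span ⟨k, hk, rfl⟩)
    have hspan : ∀ w ∈ Submodule.span ℂ (x '' A), B w ∈ Submodule.span ℂ (x '' A) := by
      have h4 : Submodule.span ℂ (x '' A)
          ≤ (Submodule.span ℂ (x '' A)).comap (B : X →ₗ[ℂ] X) := by
        rw [Submodule.span_le]
        rintro _ ⟨k, hk, rfl⟩
        exact hBx k hk
      exact fun w hw => h4 hw
    have hv' : v ∈ closure ((Submodule.span ℂ (x '' A) : Submodule ℂ X) : Set X) := hv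
    exact map_mem_closure B.continuous hv' hspan
  · intro hA hfd
    have hli : LinearIndependent ℂ (fun k : A => (⟨x k, hxF A k k.2⟩ : F A)) := by
      refine linInd_of_biorth (y := fun k : A => (y k : X →ₗ[ℂ] ℂ).comp (F A).subtype) ?_ ?_
      · intro k
        exact hy1 k
      · intro i j hij
        exact hy2' i j (fun h => hij (Subtype.ext h))
    have := hli.finite
    exact hA (Set.toFinite A)
  · intro hA hfd
    have hli : LinearIndependent ℂ (fun k : (Aᶜ : Set ℕ) => (F A).mkQ (x k)) := by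
      have hker : ∀ k : (Aᶜ : Set ℕ), F A ≤ LinearMap.ker (y k : X →ₗ[ℂ] ℂ) := fun k v hv =>
        hyF A k k.2 v hv
      refine linInd_of_biorth
        (y := fun k : (Aᶜ : Set ℕ) => (F A).liftQ (y k : X →ₗ[ℂ] ℂ) (hker k)) ?_ ?_
      · intro k
        simp only [Submodule.mkQ_apply, Submodule.liftQ_apply]
        exact hy1 k
      · intro i j hij
        simp only [Submodule.mkQ_apply, Submodule.liftQ_apply]
        exact hy2' i j (fun h => hij (Subtype.ext h))
    have := hli.finite
    exact hA (Set.toFinite (Aᶜ : Set ℕ))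

end Pool.Agent.J6H34.GRO
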