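import Pool.Agent.J6H34.GRO.Half
import Pool.Agent.J6H34.GRO.Alg

/-!
# Generic rank one perturbations of arbitrary operators
-/

namespace Pool.Agent.J6H34.GRO

open Filter Topology Metric Set

variable {X : Type*} [NormedAddCommGroup X] [NormedSpace ℂ X] [CompleteSpace X]

omit [CompleteSpace X] in
theorem Z_subset (T : X →L[ℂ] X) (p : X × StrongDual ℂ X) :
    Z T p ⊆ eigenvalues (pert T p) \ spectrum ℂ T := by
  intro z hz
  have h1 := eig_of_ev hz.1 hz.2.1
  exact ⟨⟨_, h1.1, h1.2⟩, fun h => h hz.1⟩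

theorem one_eigenvalue {T : X →L[ℂ] X} (hX : ¬ FiniteDimensional ℂ X)
    {p : X × StrongDual ℂ X} (hp : p ∈ G T univ) :
    (eigenvalues (pert T p) \ spectrum ℂ T).Nonempty ∧
      ∃ M : Submodule ℂ X, Hyperinvariant (pert T p) M ∧ M ≠ ⊥ ∧ M ≠ ⊤ := by
  obtain ⟨z, hz, hz1, hz2⟩ := exists_zero hp
  have hzZ : z ∈ Z T p := ⟨hz.1, hz1, hz2⟩
  refine ⟨⟨z, Z_subset T p hzZ⟩, ?_⟩
  obtain ⟨h0, h1⟩ := eig_of_ev hz.1 hz1
  set x := resolvent T z p.1 with hx
  refine ⟨Submodule.span ℂ {x}, ⟨Submodule.closed_of_finiteDimensional _, ?_⟩, ?_, ?_⟩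
  · intro B hB v hv
    obtain ⟨a, rfl⟩ := Submodule.mem_span_singleton.1 hv
    have h2 : pert T p (B x) = z • B x := by
      have h3 := congrArg (fun S : X →L[ℂ] X => S x) hB.eq
      simp only [mul_apply_eq_comp] at h3
      rw [h3, h1, map_smul]
    rw [map_smul, eq_smul_of_eig hz.1 h2]
    exact Submodule.smul_mem _ _ (Submodule.smul_mem _ _ (Submodule.mem_span_singleton_self x))
  · rw [Ne, Submodule.span_singleton_eq_bot]
    exact h0
  · intro htop
    apply hX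
    have h4 : FiniteDimensional ℂ (Submodule.span ℂ {x}) := inferInstance
    rw [htop] at h4
    exact Module.Finite.equiv (Submodule.topEquiv (R := ℂ) (M := X))

theorem generic (hX : ¬ FiniteDimensional ℂ X) (T : ℕ → X →L[ℂ] X) :
    ∃ U : Set (X × StrongDual ℂ X), IsGδ U ∧ Dense U ∧ ∀ p ∈ U, ∀ i,
      (∀ c ∈ frontier (spectrum ℂ (T i)), ¬ RegularOrPole (T i) c →
        c ∈ closure (eigenvalues (pert (T i) p) \ spectrum ℂ (T i))) ∧
      (¬ IsAlgebraic ℂ (T i) → ∃ M : Set ℕ ↪o Submodule ℂ X, ∀ A : Set ℕ,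
        Hyperinvariant (pert (T i) p) (M A) ∧
        (A.Infinite → ¬ FiniteDimensional ℂ (M A)) ∧
        (Aᶜ.Infinite → ¬ FiniteDimensional ℂ (X ⧸ M A))) ∧
      ∃ M : Submodule ℂ X, IsClosed (M : Set X) ∧ (∀ x ∈ M, pert (T i) p x ∈ M) ∧
        ¬ FiniteDimensional ℂ M ∧ ¬ FiniteDimensional ℂ (X ⧸ M) := by
  set E : ℕ → Set ℂ := fun i =>
    {c | c ∈ frontier (spectrum ℂ (T i)) ∧ ¬ RegularOrPole (T i) c} with hE
  have hsep : ∀ i, ∃ t : Set ℂ, t ⊆ E i ∧ t.Countable ∧ E i ⊆ closure t := fun i =>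
    (TopologicalSpace.IsSeparable.of_separableSpace (E i)).exists_countable_dense_subset
  choose t ht1 ht2 ht3 using hsep
  have hct : ∀ i, Countable (t i) := fun i => (ht2 i).to_subtype
  have hfr : ∀ i, ∀ c ∈ frontier (spectrum ℂ (T i)),
      c ∈ closure (resolventSet ℂ (T i)) ∧ c ∉ resolventSet ℂ (T i) := by
    intro i c hc
    have hcompl : (spectrum ℂ (T i))ᶜ = resolventSet ℂ (T i) := compl_compl _
    have hcl : closure (spectrum ℂ (T i)) = spectrum ℂ (T i) :=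
      (spectrum.isClosed (T i)).closure_eq
    rw [frontier_eq_closure_inter_closure, hcompl, hcl] at hc
    exact ⟨hc.2, hc.1⟩
  let J : Type := Σ i : ℕ, (t i) × ℕ
  let V : J → Set (X × StrongDual ℂ X) := fun j =>
    G (T j.1) (ball (j.2.1 : ℂ) (1 / ((j.2.2 : ℝ) + 1)))
  have hVo : ∀ j, IsOpen (V j) := fun j => isOpen_G _ _
  have hVd : ∀ j, Dense (V j) := by
    intro j
    have h1 := ht1 j.1 j.2.1.2
    exact dense_G isOpen_ball (convex_ball _ _) (mem_ball_self (by positivity))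
      (hfr j.1 _ h1.1).1 h1.2
  have hclos : ∀ p ∈ ⋂ j, V j, ∀ i, ∀ c ∈ E i, c ∈ closure (Z (T i) p) := by
    intro p hp i c hc
    rw [Metric.mem_closure_iff]
    intro ε hε
    obtain ⟨e, he, hce⟩ := Metric.mem_closure_iff.1 (ht3 i hc) (ε / 2) (by positivity)
    obtain ⟨n, hn⟩ := exists_nat_one_div_lt (show (0 : ℝ) < ε / 2 by positivity)
    have h1 : p ∈ G (T i) (ball e (1 / ((n : ℝ) + 1))) := mem_iInter.1 hp ⟨i, ⟨e, he⟩, n⟩
    obtain ⟨z, hz, hz1, hz2⟩ := exists_zero h1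
    refine ⟨z, ⟨hz.1, hz1, hz2⟩, ?_⟩
    have h2 := hz.2
    rw [mem_ball] at h2
    calc dist c z ≤ dist c e + dist z e := dist_triangle_right _ _ _
      _ < ε := by linarith
  refine ⟨⋂ j, V j, .iInter_of_isOpen hVo, dense_iInter_of_isOpen hVo hVd, ?_⟩
  intro p hp i
  have hlat : ¬ IsAlgebraic ℂ (T i) → ∃ M : Set ℕ ↪o Submodule ℂ X, ∀ A : Set ℕ,
        Hyperinvariant (pert (T i) p) (M A) ∧
        (A.Infinite → ¬ FiniteDimensional ℂ (M A)) ∧
        (Aᶜ.Infinite → ¬ FiniteDimensional ℂ (X ⧸ M A)) := by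
    intro halg
    have hex : ∃ c, c ∈ E i := by
      by_contra hno
      apply halg
      refine isAlgebraic_of_poles fun c hc => ?_
      by_contra hnp
      exact hno ⟨c, hc, hnp⟩
    obtain ⟨c, hc⟩ := hex
    apply lattice
    intro hfin
    have h1 := hclos p hp i c hc
    rw [hfin.isClosed.closure_eq] at h1
    exact (hfr i c hc.1).2 h1.1
  refine ⟨?_, hlat, ?_⟩
  · intro c hc hnp
    exact closure_mono (Z_subset (T i) p) (hclos p hp i c ⟨hc, hnp⟩)
  · by_cases halg : IsAlgebraic ℂ (T i)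
    · exact half_of_algebraic halg hX p
    · obtain ⟨M, hM⟩ := hlat halg
      have hAinf : {n : ℕ | Even n}.Infinite :=
        Set.infinite_of_injective_forall_mem (f := fun n : ℕ => 2 * n)
          (fun a b h => by simpa using h) (fun n => ⟨n, by ring⟩)
      have hAcinf : {n : ℕ | Even n}ᶜ.Infinite := by
        have : {n : ℕ | Even n}ᶜ = {n | Odd n} := by
          ext n
          simp
        rw [this]
        exact Set.infinite_of_injective_forall_mem (f := fun n : ℕ => 2 * n + 1)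
          (fun a b h => by simpa using h) (fun n => ⟨n, by ring⟩)
      obtain ⟨h1, h2, h3⟩ := hM {n | Even n}
      exact ⟨M {n | Even n}, h1.1, fun x hx => h1.2 _ (Commute.refl _) x hx, h2 hAinf,
        h3 hAcinf⟩

end Pool.Agent.J6H34.GRO
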